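import Pool.Agent.H306.HE.Main

/-! The main theorem of version 2 with the form of the initial field. -/

noncomputable section

namespace Pool.Agent.H306.HF

open Set MeasureTheory

open scoped Real ContDiff ENNReal

open Pool.Agent.H306.CK Pool.Agent.H306.DS Pool.Agent.H306.HD Pool.Agent.H306.HD.Asm
  Pool.Agent.H306.HE

/-- From the chain to the theorem. -/
theorem core2 (ν α σ δ η θ₀ T : ℝ) (hν : 0 < ν) (hα : 0 < α) (hα1 : α < 1 / 2)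
    (hσ : -(2 * α) ≤ σ) (hσ1 : σ + 2 * α ≤ 1 / 2) (hδ : 0 < δ) (P : Prm) (hPν : P.ν = ν)
    (hPα : P.α = α) (hStd : Std P) (hodd : ∀ m, Odd (P.K (m + 1))) (hO : OpB P σ)
    (hη0 : 0 < η) (hη1 : 3 * η ≤ δ) (hη2 : 12 * η ≤ min δ ν ^ 2)
    (hsm : ∀ s : ℝ, |s| ≤ max (1 / δ) 1 → ∀ m v, SP v →
      hs (s + σ) (PP P m v) ≤ ENNReal.ofReal (η * (1 / 8) ^ m) * hs s v)
    (hθ0 : 0 < θ₀) (hθ : θ₀ ≤ δ) (hT : 0 < T) (hTδ : T ≤ δ) (b : ℕ → ℝ → ℝ)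
    (g : ℕ → ℕ → ℝ → ℝ) (hch : ChSol P θ₀ T b g) :
    ∃ K : (V → V) → V → V,
      (∀ v, SF v → SF (K v)) ∧
      (∀ v w, SF v → SF w → ∀ a b : ℝ,
        K (fun x i => a * v x i + b * w x i) = fun x i => a * K v x i + b * K w x i) ∧
      (∀ s : ℝ, ∃ C : ℝ, ∀ v, SF v → hs (s + σ) (K v) ≤ ENNReal.ofReal C * hs s v) ∧
      (∀ s : ℝ, |s| ≤ 1 / δ → ∀ v, SF v → hs (s + σ) (K v) ≤ ENNReal.ofReal δ * hs s v) ∧
      (∀ v, SF v → |inner3 v (K v)| ≤ δ * inner3 v (MG (lam 1 α) v)) ∧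
      (∀ v, SF v → inner3 v (fun x i => -MG (lam ν α) v x i + K v x i) ≤ 0) ∧
      (∀ (T : ℝ) (u : ℝ → V → V) (p : ℝ → V → ℝ),
        IsSol (fun v x i => -MG (lam ν α) v x i + K v x i) (Ico 0 T) u p →
        (∀ t ∈ Ico 0 T, SF (u t)) → ∀ s ∈ Ico 0 T, ∀ t ∈ Ico 0 T, s ≤ t →
        inner3 (u t) (u t) ≤ inner3 (u s) (u s)) ∧
      ∃ (T : ℝ) (u : ℝ → V → V), 0 < T ∧ T ≤ δ ∧ (∀ x i, |u 0 x i| ≤ δ) ∧
        ContDiffOn ℝ ∞ (fun z : ℝ × V => u z.1 z.2) (Ico 0 T ×ˢ univ) ∧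
        IsSol (fun v x i => -MG (lam ν α) v x i + K v x i) (Ico 0 T) u (fun _ _ => 0) ∧
        (∀ t ∈ Ico 0 T, SF (u t)) ∧
        (∀ s : ℝ, ∀ t ∈ Ico 0 T, ∃ C : ℝ, ∀ τ ∈ Icc 0 t, hs s (u τ) ≤ ENNReal.ofReal C) ∧
        (∀ M : ℝ, ∃ t ∈ Ico 0 T, ∃ x, M < ‖curl (u t) x‖) ∧
        (∀ (T' : ℝ) (v : ℝ → V → V) (q : ℝ → V → ℝ),
          IsSol (fun v x i => -MG (lam ν α) v x i + K v x i) (Ico 0 T') v q →
          (∀ t ∈ Ico 0 T', SF (v t)) → v 0 = u 0 → T' ≤ T ∧ ∀ t ∈ Ico 0 T', v t = u t) ∧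
        ∃ f : V → ℝ, SPf f ∧ (∀ x, pd 2 f x = 0) ∧ u 0 = fun x => ![0, 0, f x] := by
  subst hPν
  subst hPα
  have hP := hStd.ok
  set κ : ℝ := min δ P.ν with hκ
  have hκ0 : 0 < κ := lt_min hδ hν
  have hκδ : κ ≤ δ := min_le_left _ _
  have hκν : κ ≤ P.ν := min_le_right _ _
  have hform : ∀ v, SP v → |inner3 v (KK P v)| ≤ inner3 v (MG (lam κ P.α) v) := fun v hv =>
    form2 TDIS.dis TSUMOP.sumop TLOP1.lop1 TLOP2.lop2 TPROF.prof TFCP.fcp TMODES.modes hP hodd hσ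
      hη0.le hκ0 hη2 hO (fun m v hv => by
        have h1 := hsm (-P.α - σ) (le_max_of_le_right (by rw [abs_le]; constructor <;> linarith)) m v hv
        have e : -P.α - σ + σ = -P.α := by ring
        rwa [e] at h1) hv
  have hsc : ∀ (c : ℝ) (v : V → V), inner3 v (MG (lam c P.α) v) =
      c * inner3 v (MG (lam 1 P.α) v) := by
    intro c v
    unfold inner3
    rw [← integral_const_mul]
    congr 1
    ext x
    rw [Finset.mul_sum]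
    exact Finset.sum_congr rfl fun i _ => by rw [lam_smul c]; ring
  have hnn : ∀ v, SP v → 0 ≤ inner3 v (MG (lam 1 P.α) v) := by
    intro v hv
    have h1 := (abs_nonneg _).trans (hform v hv)
    rw [hsc] at h1
    exact nonneg_of_mul_nonneg_right h1 hκ0
  have hdis : ∀ v, SF v → inner3 v (fun x i => -MG (lam P.ν P.α) v x i + KK P v x i) ≤ 0 := by
    intro v hv
    have h1 := le_of_abs_le (hform v hv.sp)
    have h2 := hnn v hv.sp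
    have h5 : (fun x i => -MG (lam P.ν P.α) v x i + KK P v x i) =
        fun x i => (-1) * MG (lam P.ν P.α) v x i + 1 * KK P v x i := by
      ext x i
      ring
    rw [h5, inner_comb' (MG_sp (TDIS.Mb_lam hν hα) hv.sp).cp (KK_sf facts hStd hO hv.sp).cp hv.sp.cp,
      hsc P.ν]
    rw [hsc κ] at h1
    nlinarith [mul_le_mul_of_nonneg_right hκν h2]
  have hL : LinS (Aop P) := by
    refine ⟨fun v w hv hw => ?_, fun v hv => (Aop_sf facts hStd hO hv).cp.1, hdis⟩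
    have h1 := Aop_comb facts hStd hO hv.sp hw.sp 1 (-1)
    have h2 : (fun x i => 1 * v x i + -1 * w x i) = v - w := by
      ext x i
      simp only [Pi.sub_apply]
      ring
    rw [h2] at h1
    rw [h1]
    ext x i
    simp only [Pi.sub_apply]
    ring
  have hsol := UU_sol facts hStd hch hO (by linarith) hT
  have husf : ∀ t ∈ Ico 0 T, SF (UU P b g t) := fun t ht => UU_sf facts hStd hch ht
  have hunb : ∀ M : ℝ, ∃ t ∈ Ico 0 T, ∃ x, M < ‖curl (UU P b g t) x‖ := by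
    intro M
    obtain ⟨t, ht, m, hm⟩ := hch.unb M
    obtain ⟨x, hx⟩ := UU_curl facts hStd hch hT m
    exact ⟨t, ht, x, hm.trans_le (hx t ht)⟩
  have hzero := UU_zero (P := P) hch
  have hE : SF (Em P 0 0) := (TMODES.modes TPROF.prof TFCP.fcp P hP).2.1 0 0
  refine ⟨KK P, fun v hv => KK_sf facts hStd hO hv.sp,
    fun v w hv hw c d => KK_comb facts hStd hO hv.sp hw.sp c d, fun s => ?_, fun s hs v hv => ?_,
    fun v hv => ?_, hdis, fun T' u p hu hus => energy_leS hL hu hus, T, UU P b g, hT,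
    hTδ, fun x i => ?_, UU_smooth hStd hch hT, hsol, husf,
    fun s t ht => UU_hs facts hStd hch s ht, hunb,
    fun T' v q hv hvs h0 => maximal hL hsol husf hunb hv hvs h0,
    fun x => θ₀ * Em P 0 0 x 2, ⟨contDiff_const.mul (hE.sp.comp 2).1, fun i x => by
      have h1 := (hE.sp.comp 2).2 i x
      simp only at h1 ⊢
      rw [h1]⟩, fun x => by
      have h1 := pd_ph_2 facts hStd (Sum.inr (0, 0)) 2 x
      change pd 2 (fun z => Em P 0 0 z 2) x = 0 at h1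
      have h2 := pd_comb (hE.sp.comp 2).1 (hE.sp.comp 2).1 θ₀ 0 2 x
      simp only [zero_mul, add_zero] at h2
      rw [h2, h1, mul_zero], ?_⟩
  · obtain ⟨C', hC'0, hC'⟩ := hO s
    exact ⟨3 * C', fun v hv => KK_hs facts hStd hO hC'0 hC' hv.sp⟩
  · refine (KK_hs facts hStd hO hη0.le (hsm s (hs.trans (le_max_left _ _))) hv.sp).trans ?_
    gcongr
  · refine (hform v hv.sp).trans ?_
    rw [hsc κ]
    exact mul_le_mul_of_nonneg_right hκδ (hnn v hv.sp)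
  · rw [hzero]
    rw [abs_mul, abs_of_pos hθ0]
    calc θ₀ * |Em P 0 0 x i| ≤ δ * 1 := by
          have := Em_le hP 0 0 x i
          gcongr
      _ = δ := mul_one δ
  · rw [hzero]
    ext x i
    fin_cases i
    · change θ₀ * Em P 0 0 x 0 = (0 : ℝ)
      rw [Em_zero, mul_zero]
    · change θ₀ * Em P 0 0 x 1 = (0 : ℝ)
      rw [Em_one, mul_zero]
    · rfl


theorem main2 (ν α σ δ : ℝ) (hν : 0 < ν) (hα : 0 < α) (hα1 : α < 1 / 2) (hσ : -(2 * α) ≤ σ)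
    (hασ : σ < 1 / 4 - 3 * α + α ^ 2) (hδ : 0 < δ) :
    ∃ K : (V → V) → V → V,
      (∀ v, SF v → SF (K v)) ∧
      (∀ v w, SF v → SF w → ∀ a b : ℝ,
        K (fun x i => a * v x i + b * w x i) = fun x i => a * K v x i + b * K w x i) ∧
      (∀ s : ℝ, ∃ C : ℝ, ∀ v, SF v → hs (s + σ) (K v) ≤ ENNReal.ofReal C * hs s v) ∧
      (∀ s : ℝ, |s| ≤ 1 / δ → ∀ v, SF v → hs (s + σ) (K v) ≤ ENNReal.ofReal δ * hs s v) ∧
      (∀ v, SF v → |inner3 v (K v)| ≤ δ * inner3 v (MG (lam 1 α) v)) ∧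
      (∀ v, SF v → inner3 v (fun x i => -MG (lam ν α) v x i + K v x i) ≤ 0) ∧
      (∀ (T : ℝ) (u : ℝ → V → V) (p : ℝ → V → ℝ),
        IsSol (fun v x i => -MG (lam ν α) v x i + K v x i) (Ico 0 T) u p →
        (∀ t ∈ Ico 0 T, SF (u t)) → ∀ s ∈ Ico 0 T, ∀ t ∈ Ico 0 T, s ≤ t →
        inner3 (u t) (u t) ≤ inner3 (u s) (u s)) ∧
      ∃ (T : ℝ) (u : ℝ → V → V), 0 < T ∧ T ≤ δ ∧ (∀ x i, |u 0 x i| ≤ δ) ∧
        ContDiffOn ℝ ∞ (fun z : ℝ × V => u z.1 z.2) (Ico 0 T ×ˢ univ) ∧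
        IsSol (fun v x i => -MG (lam ν α) v x i + K v x i) (Ico 0 T) u (fun _ _ => 0) ∧
        (∀ t ∈ Ico 0 T, SF (u t)) ∧
        (∀ s : ℝ, ∀ t ∈ Ico 0 T, ∃ C : ℝ, ∀ τ ∈ Icc 0 t, hs s (u τ) ≤ ENNReal.ofReal C) ∧
        (∀ M : ℝ, ∃ t ∈ Ico 0 T, ∃ x, M < ‖curl (u t) x‖) ∧
        (∀ (T' : ℝ) (v : ℝ → V → V) (q : ℝ → V → ℝ),
          IsSol (fun v x i => -MG (lam ν α) v x i + K v x i) (Ico 0 T') v q →
          (∀ t ∈ Ico 0 T', SF (v t)) → v 0 = u 0 → T' ≤ T ∧ ∀ t ∈ Ico 0 T', v t = u t) ∧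
        ∃ f : V → ℝ, SPf f ∧ (∀ x, pd 2 f x = 0) ∧ u 0 = fun x => ![0, 0, f x] := by
  obtain ⟨q, r, x, η₁, hE⟩ := exps hα hα1 hσ hασ
  set S : ℝ := max (1 / δ) 1 with hSdef
  have hS2 : 1 ≤ S := le_max_right _ _
  obtain ⟨C, n, hC1, hbdp⟩ := TBDP.bdp TPROF.prof TCOMM.comm TBDM.bdm TMODES.modes TFCP.fcp S
  set κ : ℝ := min δ ν with hκ
  have hκ0 : 0 < κ := lt_min hδ hν
  set η : ℝ := min (δ / 3) (κ ^ 2 / 12) with hη
  have hη0 : 0 < η := lt_min (by positivity) (by positivity)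
  have hη1 : 3 * η ≤ δ := by
    have := min_le_left (δ / 3) (κ ^ 2 / 12)
    linarith
  have hη2 : 12 * η ≤ κ ^ 2 := by
    have := min_le_right (δ / 3) (κ ^ 2 / 12)
    linarith
  have hδ' : 0 < min δ (1 / 2) := lt_min hδ (by norm_num)
  obtain ⟨N₁, hN₁⟩ := TPN1.pn1 TZ.zz ν α σ q r x η₁ hν hE
  obtain ⟨N₂, hN₂⟩ := TPN2.pn2 TZ.zz ν α σ q r x η₁ (min δ (1 / 2)) hν hδ' hE
  obtain ⟨N₃, hN₃⟩ := TPN3.pn3 TZ.zz ν α σ q r x η₁ hν hE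
  obtain ⟨N₄, hN₄⟩ := TPB2.pb2 TZ.zz ν α σ q r x η₁ S C η n hν (by linarith) (by linarith) hη0 hE
  obtain ⟨N₅, hN₅⟩ := TZ.zz.1 q x (1 / δ) 1 hE.q1 hE.x0 zero_le_one
  set N : ℕ := N₁ + N₂ + N₃ + N₄ + N₅ + 1 with hN
  obtain ⟨hP, h1, h1', h6', hcle, hsmall⟩ := hN₁ N (by omega)
  obtain ⟨hτ, hW, hWeq, htot, h2, h3, h4, h5, h0⟩ := hN₂ N (by omega)
  obtain ⟨htn, htl, h6, h7, hrap, hseed, h8⟩ := hN₃ N (by omega)
  obtain ⟨hB1, hB2⟩ := hN₄ N (by omega)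
  have hN1 : (0 : ℝ) < N := by exact_mod_cast (by omega : 0 < N)
  have hz : ∀ m, 0 < zq N q m := fun m => Real.rpow_pos_of_pos hN1 _
  have hc_pos : ∀ m, 0 < (prm2 ν α σ q r η₁ N).c m := fun m => Real.rpow_pos_of_pos (hz m) _
  have hε_pos : ∀ m, 0 < (prm2 ν α σ q r η₁ N).ε m := fun m => Real.exp_pos _
  have hθ_pos : ∀ m, 0 < th2 q x N m := fun m => Real.rpow_pos_of_pos (hz m) _
  have hlm : ∀ m, 0 < lm2 m := fun m => by unfold lm2; positivity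
  have hlm1 : ∀ m, lm2 m ≤ 1 / 2 := fun m => by
    unfold lm2
    calc ((1 : ℝ) / 2) ^ (28 * m + 1) ≤ (1 / 2) ^ 1 :=
          pow_le_pow_of_le_one (by norm_num) (by norm_num) (by omega)
      _ = 1 / 2 := pow_one _
  have hCh : ChP (prm2 ν α σ q r η₁ N) (th2 q x N) (tau2 ν α σ q r x η₁ N)
      (W2 ν α σ q r x η₁ N) lm2 (tn2 q r N) :=
    ⟨hc_pos, hε_pos, hθ_pos, hτ, hW, hWeq, htot.trans (min_le_right _ _), hlm, hlm1, htn, htl, h1, h1',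
      h2, h3, h4, h5, h6, h6', h7, h8, h0, hrap, hcle, hseed, hsmall⟩
  have hStd : Std (prm2 ν α σ q r η₁ N) := ⟨hP, hrap, hε_pos, hc_pos, hcle⟩
  have hodd : ∀ m, Odd ((prm2 ν α σ q r η₁ N).K (m + 1)) := fun m => ⟨_, rfl⟩
  have hσ1 : |σ| ≤ 1 := by
    have := hE.σ1
    rw [abs_le]
    constructor <;> linarith
  have hσ2 : σ + 2 * (prm2 ν α σ q r η₁ N).α - 1 ≤ 0 := by
    have := hE.σ1
    change σ + 2 * α - 1 ≤ 0
    linarith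
  have hO : OpB (prm2 ν α σ q r η₁ N) σ := by
    intro s
    obtain ⟨C', n', hC'1, hbdp'⟩ := TBDP.bdp TPROF.prof TCOMM.comm TBDM.bdm TMODES.modes TFCP.fcp |s|
    obtain ⟨C'', hC''0, hC''⟩ := hB2 |s| C' n' (abs_nonneg s) (by linarith)
    refine ⟨C'', hC''0, fun m v hv => ?_⟩
    exact (hbdp' _ hP s σ le_rfl hσ1 hσ2 m v hv).trans
      (mul_le_mul' (ENNReal.ofReal_le_ofReal (hC'' m)) le_rfl)
  have hsm : ∀ s : ℝ, |s| ≤ S → ∀ m v, SP v → hs (s + σ) (PP (prm2 ν α σ q r η₁ N) m v) ≤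
      ENNReal.ofReal (η * (1 / 8) ^ m) * hs s v := by
    intro s hs m v hv
    exact (hbdp _ hP s σ hs hσ1 hσ2 m v hv).trans
      (mul_le_mul' (ENNReal.ofReal_le_ofReal (hB1 m)) le_rfl)
  obtain ⟨b, w, J, ad, hseq⟩ := TREC2.rec2 TBEX.bex TBBD.bbd _ _ _ _ _ _ hP hCh
  obtain ⟨T, hT, hTle, hch⟩ := TCH.ch TOP.op TE1.g TWN.wn TSTG.stg TE1.e1 TE2.e2 _ _ _ _ _ _ b w J
    ad hP hCh hseq
  have hθ : th2 q x N 0 ≤ δ := by
    have h9 := hN₅ N (by omega) 0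
    rw [one_pow, mul_one] at h9
    unfold th2
    rw [Real.rpow_neg (hz 0).le, inv_le_comm₀ (Real.rpow_pos_of_pos (hz 0) _) hδ, ← one_div]
    exact h9
  exact core2 ν α σ δ η (th2 q x N 0) T hν hα hα1 hσ hE.σ1 hδ (prm2 ν α σ q r η₁ N) rfl rfl hStd hodd hO
    hη0 hη1 hη2 hsm (hθ_pos 0) hθ hT (hTle.trans (htot.trans (min_le_left _ _))) b _ hch


end Pool.Agent.H306.HF
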