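import Pool.Agent.H306.HD.Stm2
import Pool.Agent.H306.DS.Hs2

/-! Statements for version 3: blow-up operators are dense near every dissipative operator of lower order. -/

noncomputable section

namespace Pool.Agent.H306.HF

open Set MeasureTheory

open scoped Real ContDiff ENNReal

open Pool.Agent.H306.CK Pool.Agent.H306.DS Pool.Agent.H306.HD

/-- All components of `k` are divisible by `p`. -/
def dv (p : ℕ) (k : Fin 3 → ℤ) : Prop := ∀ j, (p : ℤ) ∣ k j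

/-- The multiplier `0` on the nonzero frequencies in `(pℤ)³`, `1` elsewhere. -/
def qv (p : ℕ) (k : Fin 3 → ℤ) : ℝ := open Classical in if dv p k ∧ k ≠ 0 then 0 else 1

/-- `1 - qv p`. -/
def hv (p : ℕ) (k : Fin 3 → ℤ) : ℝ := open Classical in if dv p k ∧ k ≠ 0 then 1 else 0

def pk (p : ℕ) (k : Fin 3 → ℤ) : Fin 3 → ℤ := fun j => p * k j

/-- `x ↦ f (p x)`. -/
def sc1 (p : ℕ) (f : V → ℝ) (x : V) : ℝ := f fun j => p * x j

def sc (p : ℕ) (v : V → V) (x : V) : V := v fun j => p * x j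

/-- The function with the Fourier integrals `k ↦ fc f (p k)`. -/
def ds1 (p : ℕ) (f : V → ℝ) (x : V) : ℝ :=
  ∑' k : Fin 3 → ℤ, tg (((((2 * π) ^ 3)⁻¹ : ℝ) : ℂ) * fc f (pk p k)) k x

def ds (p : ℕ) (v : V → V) (x : V) : V := fun i => ds1 p (fun y => v y i) x

/-- `x ↦ v (p x) / p`. -/
def Dp (p : ℕ) (v : V → V) (x : V) : V := fun i => (1 / p : ℝ) * v (fun j => p * x j) i

/-- The class of the given operators: linear, dissipative, zero on constant fields, of order `-σ'`. -/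
structure LO (σ' : ℝ) (L : (V → V) → V → V) : Prop where
  sf : ∀ v, SF v → SF (L v)
  comb : ∀ v w, SF v → SF w → ∀ a b : ℝ,
    L (fun x i => a * v x i + b * w x i) = fun x i => a * L v x i + b * L w x i
  const : ∀ c : V, L (fun _ => c) = fun _ _ => 0
  bd : ∀ S : ℝ, ∃ C : ℝ, ∀ s : ℝ, |s| ≤ S → ∀ v, SF v →
    hs (s + σ') (L v) ≤ ENNReal.ofReal C * hs s v
  dis : ∀ v, SF v → inner3 v (L v) ≤ 0

/-- The compression of `L`. -/
def QQ (p : ℕ) (L : (V → V) → V → V) (v : V → V) : V → V := MG (qv p) (L (MG (qv p) v))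

/-- The remainder `Q L Q - L`. -/
def RL (p : ℕ) (L : (V → V) → V → V) (v : V → V) (x : V) : V := fun i => QQ p L v x i - L v x i

/-- Dilation and Fourier integrals.

Proof. Smoothness and periodicity: composition with a linear map; period `2π p` in each variable (induction on `p`, or
`Function.Periodic`-type lemma). For the Fourier integrals: by Fourier inversion (`four_inv` in `CK.Four2`, used in `DS.Frac`; or `mg 1 f = f` by
`fc_mg` and `fc_inj`), `f x = ∑' k, tg ((2π)⁻³ fc f k) k x`, absolutely (`fc_decay`, `W_summable`), so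
`sc1 p f x = ∑' k, tg ((2π)⁻³ fc f k) (pk p k) x` (`tg c k (p x) = tg c (pk p k) x`), and `fc_tsum`, `fc_tg` of `DS.Frac` (as in the proof of
`fc_mg`) give `fc (sc1 p f) l = ∑ k, ...`, which is `fc f k` for `l = pk p k` (`fc_conj`) and `0` if `l` is not of this form. -/
def S_F1 : Prop := ∀ (p : ℕ) (f : V → ℝ), 1 ≤ p → SPf f → SPf (sc1 p f) ∧
  (∀ k, fc (sc1 p f) (pk p k) = fc f k) ∧ ∀ l, ¬dv p l → fc (sc1 p f) l = 0

/-- The inverse dilation.

Proof. As `mg_coef`, `mg_bound`, `mg_spf`, `fc_mg` in `DS.Frac` (copy and adapt): the coefficients are `fc f (pk p k)` in place of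
`m k * fc f k`; `fc_decay hf M` gives `‖fc f (pk p k)‖ ≤ C * W M (pk p k) ≤ C * W M k` for `M ≤ 0` (`W M` is decreasing in `|k|` for `M ≤ 0`,
`1 ≤ p`); `fc_conj` for the symmetry `conj (fc f (pk p (-k))) = fc f (pk p k)`. -/
def S_F2 : Prop := ∀ (p : ℕ) (f : V → ℝ), 1 ≤ p → SPf f → SPf (ds1 p f) ∧
  ∀ k, fc (ds1 p f) k = fc f (pk p k)

/-- Proof. `SF (sc p v)`: `S_F1` and the chain rule for the divergence (`pd i (fun y => sc p v y i) x = p * pd i (fun y => v y i) (p x)`), or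
`fc_div` and `fc_inj` as in `MG_sf` of `DS.Frac`. `SF (ds p v)`: `S_F2` and as `MG_sf` (`fc_div`: `∑ i, I k_i fc (v_i) (pk p k) = (1/p) ∑ i, I (pk p k)_i fc (v_i) (pk p k) = 0`).
`ds p (sc p v) = v` and linearity: `fc_inj`, `fc_add`, `fc_smul`. -/
def S_SD : Prop := S_F1 → S_F2 → ∀ p : ℕ, 1 ≤ p →
  (∀ v, SF v → SF (sc p v) ∧ SF (ds p v) ∧ ds p (sc p v) = v) ∧
  ∀ v w, SF v → SF w → ∀ a b : ℝ,
    ds p (fun x i => a * v x i + b * w x i) = fun x i => a * ds p v x i + b * ds p w x i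

/-- Proof. `hs s (sc p v) = ∑ k, W s (pk p k) ∑ i ‖fc v_i k‖²` (`S_F1`; the terms `l` not of the form `pk p k` vanish; `tsum` over the range of the
injective map `pk p`, e.g. `tsum_eq_tsum_of_ne_zero_bij` or `Function.Injective.tsum_eq`) and `W s (pk p k) ≤ p^(2|s|) W s k` since
`1 + |k|² ≤ 1 + p²|k|² ≤ p² (1 + |k|²)` (`s ≥ 0`: right inequality; `s < 0`: left one, and `1 ≤ p^(2|s|)`). `hs s (ds p v) = ∑ k, W s k ∑ i ‖fc v_i (pk p k)‖²`,
`W s k ≤ p^(2|s|) W s (pk p k)`, and the sum over the range of `pk p` is at most the sum over all frequencies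
(`ENNReal.tsum_comp_le_tsum_of_injective`). -/
def S_SH : Prop := S_F1 → S_F2 → ∀ p : ℕ, 1 ≤ p → ∀ (s : ℝ) (v : V → V), SP v →
  hs s (sc p v) ≤ ENNReal.ofReal ((p : ℝ) ^ (2 * |s|)) * hs s v ∧
  hs s (ds p v) ≤ ENNReal.ofReal ((p : ℝ) ^ (2 * |s|)) * hs s v

/-- Proof. Parseval (`parseval3` in `DS.Hs2`) for the first; for the second Parseval and `lam 1 α k = p^(-2α) lam 1 α (pk p k) ≤ lam 1 α (pk p k)`,
and the sum over the range of `pk p` is at most the sum over all frequencies (nonnegative terms); for the third `fc_inj` and `fc_MG`: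
`lam ν α (pk p k) = lam (ν p^(2α)) α k`. `Mb (lam ν α)`: `TDIS.Mb_lam` in module `Pool.Agent.H306.HD.TDIS` (you may import it). -/
def S_SI : Prop := S_F1 → S_F2 → ∀ p : ℕ, 1 ≤ p →
  (∀ v w, SP v → SP w → inner3 v (sc p w) = inner3 (ds p v) w) ∧
  (∀ (α : ℝ) (v : V → V), 0 < α → SP v →
    inner3 (ds p v) (MG (lam 1 α) (ds p v)) ≤ inner3 v (MG (lam 1 α) v)) ∧
  ∀ (ν α : ℝ) (v : V → V), 0 < ν → 0 < α → SP v →
    MG (lam ν α) (sc p v) = sc p (MG (lam (ν * (p : ℝ) ^ (2 * α)) α) v)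

/-- Dilation of solutions. Proof. Chain rule: `∂ₜ` gives `1/p`, `(U · ∇) U = (1/p) ((u · ∇) u) (p x)` for `U = Dp p u`; curl: the factors `1/p` and `p`
cancel. The structure `IsSol` is in `CK.Defs`. Derivatives `pd` of `fun y => (1/p) * f (p y)`: `fderiv` of a composition with
`x ↦ (fun j => p * x j)` (`f` differentiable: from `c1_u` at fixed `t`; if `f` were not differentiable, `pd` is `0` on both sides as well, `p ≠ 0`). -/
def S_PD : Prop := ∀ p : ℕ, 1 ≤ p →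
  (∀ (A A' : (V → V) → V → V) (T : ℝ) (u : ℝ → V → V),
    IsSol A (Ico 0 T) u (fun _ _ => 0) →
    (∀ t ∈ Ico 0 T, A' (Dp p (u t)) = Dp p (A (u t))) →
    IsSol A' (Ico 0 T) (fun t => Dp p (u t)) (fun _ _ => 0)) ∧
  (∀ (T : ℝ) (u : ℝ → V → V), ContDiffOn ℝ ∞ (fun z : ℝ × V => u z.1 z.2) (Ico 0 T ×ˢ univ) →
    ContDiffOn ℝ ∞ (fun z : ℝ × V => Dp p (u z.1) z.2) (Ico 0 T ×ˢ univ)) ∧
  ∀ v : V → V, ContDiff ℝ 1 v → ∀ x : V, curl (Dp p v) (fun j => x j / p) = curl v x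

/-- Smallness of `Q L Q - L` in the topology of order `-σ`.

Proof. `hv p = 1 - qv p`; both satisfy `Mb` (bounded by `1`, even). With `MG (qv p) v + MG (hv p) v = v` (`fc_inj`) and linearity,
`L v - Q L Q v = MG (hv p) (L v) + MG (qv p) (L (MG (hv p) v))`. `hv p k ≠ 0` implies `|k|² ≥ p²`, so with `g = σ' - σ > 0`,
`W t k ≤ (1 + p²)^(-g) W (t + g) k` there, `hs t (MG (hv p) w) ≤ (1 + p²)^(-g) hs (t + g) w`; `hs t (MG (qv p) w) ≤ hs t w`. Hence
`hs (s + σ) (MG (hv p) (L v)) ≤ (1 + p²)^(-g) hs (s + σ') (L v) ≤ (1 + p²)^(-g) C hs s v`,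
`hs (s + σ) (MG (qv p) (L (MG (hv p) v))) ≤ hs ((s - g) + σ') (L (MG (hv p) v)) ≤ C hs (s - g) (MG (hv p) v) ≤ C (1 + p²)^(-g) hs s v`
(`bd` with `S + g`, `C ≥ 0` w.l.o.g.), and `hs (a + b) ≤ 2 hs a + 2 hs b`. Second claim: the same bounds without smallness (`(1 + p²)^(-g) ≤ 1`). -/
def S_LB : Prop := ∀ (σ σ' : ℝ) (L : (V → V) → V → V), σ < σ' → LO σ' L →
  (∀ S ε : ℝ, 0 < ε → ∃ p₀ : ℕ, ∀ p, p₀ ≤ p → ∀ s : ℝ, |s| ≤ S → ∀ v, SF v →
    hs (s + σ) (RL p L v) ≤ ENNReal.ofReal ε * hs s v) ∧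
  ∀ (p : ℕ) (s : ℝ), 1 ≤ p → ∃ C : ℝ, 0 ≤ C ∧ ∀ v, SF v →
    hs (s + σ) (RL p L v) ≤ ENNReal.ofReal C * hs s v

/-- Smallness of `Q L Q - L` in the sense of forms.

Proof. `S_DIS` (`HD.Stm2`, proved in module `HD.TDIS` as `TDIS.dis`) with `ν := ε`, `w := RL p L v` and `w := -RL p L v` (`η = ε²/4`). It remains:
`fc w_i 0 = 0` and `hs (-α) w ≤ η G`, `G = ∑_{k ≠ 0} W α k ∑ i ‖fc v_i k‖² = hs α v°`, `v° = v - mean = MG (1 - δ_0) v` (multiplier `if k = 0 then 0 else 1`).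
Mean: `dis` for `v + λ c` (`c` constant, `L c = 0`) gives `inner3 v (L v) + λ inner3 c (L v) ≤ 0` for all real `λ`, so `inner3 c (L v) = 0`, i.e. `fc (L v)_i 0 = 0`;
then `fc (RL p L v)_i 0 = 0`. Bound: `L v = L v°` (`v - v°` is a constant field). As in `S_LB` (first display, with `s = -α - σ`, `g = σ' - σ`) applied to
`v°` in place of `v`: `hs (-α) (RL p L v) = hs (-α) (RL p L v°) ≤ 4 C (1 + p²)^(-g) hs (-α - σ) v° ≤ 4 C (1 + p²)^(-g) hs α v°` because `-α - σ ≤ α`. So this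
follows from `S_LB` with `S = |α + σ|`, `s = -α - σ`, `ε := ε²/4`, since `RL p L v = RL p L v°` (`qv p 0 = 1`: `MG (qv p)` fixes constants). -/
def S_LF : Prop := S_LB → S_DIS → ∀ (α σ σ' : ℝ) (L : (V → V) → V → V), 0 < α → α < 1 / 2 →
  -(2 * α) ≤ σ → σ < σ' → LO σ' L → ∀ ε : ℝ, 0 < ε → ∃ p₀ : ℕ, ∀ p, p₀ ≤ p → ∀ v, SF v →
    |inner3 v (RL p L v)| ≤ ε * inner3 v (MG (lam 1 α) v)

/-- Properties of the compression.

Proof. `MG_sf`; self-adjointness of `MG (qv p)` (Parseval, `parseval3`, `fc_MG`): `inner3 v (MG (qv p) w) = inner3 (MG (qv p) v) w`, then `dis`. The field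
`MG (qv p) (sc p v)` is constant: its Fourier integrals vanish for `k ≠ 0` (`S_F1`: `fc (sc p v)_i k = 0` unless `dv p k`, and `qv p k = 0` for `dv p k`, `k ≠ 0`),
`fc_inj` with the constant function; then `const` (and `MG (qv p) 0 = 0`). -/
def S_LD : Prop := S_F1 → ∀ (σ' : ℝ) (L : (V → V) → V → V), LO σ' L → ∀ p : ℕ, 1 ≤ p →
  (∀ v, SF v → SF (QQ p L v)) ∧
  (∀ v w, SF v → SF w → ∀ a b : ℝ,
    QQ p L (fun x i => a * v x i + b * w x i) = fun x i => a * QQ p L v x i + b * QQ p L w x i) ∧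
  (∀ v, SF v → inner3 v (QQ p L v) ≤ 0) ∧
  ∀ v, SF v → QQ p L (sc p v) = fun _ _ => 0

end Pool.Agent.H306.HF
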