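import Pool.Agent.H306.HF.Core2
import Pool.Agent.H306.HF.Stm

/-! The assembly of version 3. -/

noncomputable section

namespace Pool.Agent.H306.HF

open Set MeasureTheory

open scoped Real ContDiff ENNReal

open Pool.Agent.H306.CK Pool.Agent.H306.DS Pool.Agent.H306.HD Pool.Agent.H306.HD.Asm

/-- The dilated operator. -/
def Kp (p : ℕ) (K : (V → V) → V → V) (v : V → V) : V → V := sc p (K (ds p v))

theorem smul_eq (c : ℝ) (v : V → V) : (fun x i => c * v x i) = fun x i => c * v x i + 0 * v x i := by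
  ext x i
  ring

theorem smul_sf {v : V → V} (hv : SF v) (c : ℝ) : SF (fun x i => c * v x i) := by
  rw [smul_eq]
  exact comb_sf hv hv c 0

theorem Dp_eq (p : ℕ) (v : V → V) : Dp p v = sc p (fun x i => (1 / p : ℝ) * v x i) := rfl

section

variable {p : ℕ} {K L : (V → V) → V → V} {σ σ' : ℝ}

theorem form_abs {α : ℝ} (hlow : ∀ v, SP v → 0 ≤ inner3 v (MG (lam 1 α) v)) {v : V → V} (hv : SP v) :
    0 ≤ inner3 v (MG (lam 1 α) v) := hlow v hv

end

theorem form_nn (hDIS : S_DIS) {α : ℝ} (hα : 0 < α) (hα1 : α ≤ 1) {v : V → V} (hv : SP v) :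
    0 ≤ inner3 v (MG (lam 1 α) v) := by
  have hz : SP (fun _ _ => 0 : V → V) := ⟨contDiff_const, fun _ _ => rfl⟩
  have h := hDIS 1 α 0 v (fun _ _ => 0) one_pos hα hα1 le_rfl (by norm_num) hv hz
    (fun i => by simp [fc]) (by
      have : hs (-α) (fun _ _ => 0 : V → V) = 0 := by
        unfold hs
        simp [fc]
      rw [this]
      exact zero_le)
  have h1 : (fun x i => -MG (lam 1 α) v x i + (fun _ _ => 0 : V → V) x i) =
      fun x i => (-1) * MG (lam 1 α) v x i + 0 * v x i := by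
    ext x i
    simp
  rw [h1, inner_comb' (MG_sp (TDIS.Mb_lam one_pos hα) hv).cp hv.cp hv.cp] at h
  linarith

theorem lam_inner (c : ℝ) (α : ℝ) (v : V → V) : inner3 v (MG (lam c α) v) =
    c * inner3 v (MG (lam 1 α) v) := by
  unfold inner3
  rw [← integral_const_mul]
  congr 1
  ext x
  rw [Finset.mul_sum]
  exact Finset.sum_congr rfl fun i _ => by rw [lam_smul c]; ring

theorem main3 (hF1 : S_F1) (hF2 : S_F2) (hSD : S_SD) (hSH : S_SH) (hSI : S_SI) (hPD : S_PD)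
    (hLB : S_LB) (hLF : S_LF) (hLD : S_LD)
    (ν α σ σ' δ : ℝ) (hν : 0 < ν) (hα : 0 < α) (hα1 : α < 1 / 2) (hσ : -(2 * α) ≤ σ)
    (hασ : σ < 1 / 4 - 3 * α + α ^ 2) (hσ' : σ < σ') (hδ : 0 < δ) (L : (V → V) → V → V)
    (hL : LO σ' L) :
    ∃ K : (V → V) → V → V,
      (∀ v, SF v → SF (K v)) ∧
      (∀ v w, SF v → SF w → ∀ a b : ℝ,
        K (fun x i => a * v x i + b * w x i) = fun x i => a * K v x i + b * K w x i) ∧
      (∀ s : ℝ, ∃ C : ℝ, ∀ v, SF v →
        hs (s + σ) (fun x i => K v x i - L v x i) ≤ ENNReal.ofReal C * hs s v) ∧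
      (∀ s : ℝ, |s| ≤ 1 / δ → ∀ v, SF v →
        hs (s + σ) (fun x i => K v x i - L v x i) ≤ ENNReal.ofReal δ * hs s v) ∧
      (∀ v, SF v → |inner3 v (fun x i => K v x i - L v x i)| ≤
        δ * inner3 v (MG (lam 1 α) v)) ∧
      (∀ v, SF v → inner3 v (fun x i => -MG (lam ν α) v x i + K v x i) ≤ 0) ∧
      (∀ (T : ℝ) (u : ℝ → V → V) (p : ℝ → V → ℝ),
        IsSol (fun v x i => -MG (lam ν α) v x i + K v x i) (Ico 0 T) u p →
        (∀ t ∈ Ico 0 T, SF (u t)) → ∀ s ∈ Ico 0 T, ∀ t ∈ Ico 0 T, s ≤ t →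
        inner3 (u t) (u t) ≤ inner3 (u s) (u s)) ∧
      ∃ (T : ℝ) (u : ℝ → V → V), 0 < T ∧ T ≤ δ ∧ (∀ x i, |u 0 x i| ≤ δ) ∧
        ContDiffOn ℝ ∞ (fun z : ℝ × V => u z.1 z.2) (Ico 0 T ×ˢ univ) ∧
        IsSol (fun v x i => -MG (lam ν α) v x i + K v x i) (Ico 0 T) u (fun _ _ => 0) ∧
        (∀ t ∈ Ico 0 T, SF (u t)) ∧
        (∀ s : ℝ, ∀ t ∈ Ico 0 T, ∃ C : ℝ, ∀ τ ∈ Icc 0 t, hs s (u τ) ≤ ENNReal.ofReal C) ∧
        (∀ M : ℝ, ∃ t ∈ Ico 0 T, ∃ x, M < ‖curl (u t) x‖) ∧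
        (∀ (T' : ℝ) (v : ℝ → V → V) (q : ℝ → V → ℝ),
          IsSol (fun v x i => -MG (lam ν α) v x i + K v x i) (Ico 0 T') v q →
          (∀ t ∈ Ico 0 T', SF (v t)) → v 0 = u 0 → T' ≤ T ∧ ∀ t ∈ Ico 0 T', v t = u t) ∧
        ∃ w : ℝ → V → V, w 0 = u 0 ∧
          ContDiffOn ℝ ∞ (fun z : ℝ × V => w z.1 z.2) (Ici 0 ×ˢ univ) ∧
          IsSol (fun v x i => -MG (lam ν α) v x i) (Ici 0) w (fun _ _ => 0) ∧
          (∀ t ∈ Ici (0 : ℝ), SF (w t)) ∧
          ∀ s : ℝ, ∀ t ∈ Ici (0 : ℝ), hs s (w t) ≤ hs s (w 0) := by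
  obtain ⟨hLB1, hLB2⟩ := hLB σ σ' L hσ' hL
  obtain ⟨p₁, hp₁⟩ := hLB1 (1 / δ) (δ / 4) (by positivity)
  obtain ⟨p₂, hp₂⟩ := hLF hLB TDIS.dis α σ σ' L hα hα1 hσ hσ' hL (δ / 2) (by positivity)
  set p : ℕ := p₁ + p₂ + 1 with hp
  have hp1 : 1 ≤ p := by omega
  have hpR : (1 : ℝ) ≤ p := by exact_mod_cast hp1
  have hp0 : (0 : ℝ) < p := by linarith
  have hR1 := hp₁ p (by omega)
  have hR2 := hp₂ p (by omega)
  have hsd := hSD hF1 hF2 p hp1
  have hsh := hSH hF1 hF2 p hp1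
  have hsi := hSI hF1 hF2 p hp1
  have hpd := hPD p hp1
  obtain ⟨hq1, hq2, hq3, hq4⟩ := hLD hF1 σ' L hL p hp1
  -- the parameters
  set A : ℝ := (p : ℝ) ^ (2 * (1 / δ + |σ|)) * (p : ℝ) ^ (2 * (1 / δ)) with hA
  have hA1 : 1 ≤ A := by
    rw [hA]
    have h1 : (1 : ℝ) ≤ (p : ℝ) ^ (2 * (1 / δ + |σ|)) :=
      Real.one_le_rpow hpR (by positivity)
    have h2 : (1 : ℝ) ≤ (p : ℝ) ^ (2 * (1 / δ)) := Real.one_le_rpow hpR (by positivity)
    nlinarith
  have hA0 : 0 < A := by linarith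
  set δ' : ℝ := min (δ / (4 * A)) (min (δ / 2) ν) with hδ'
  have hδ'0 : 0 < δ' := lt_min (by positivity) (lt_min (by positivity) hν)
  have hδ'1 : A * δ' ≤ δ / 4 := by
    have h1 : δ' ≤ δ / (4 * A) := min_le_left _ _
    rw [le_div_iff₀ (by positivity)] at h1
    linarith
  have hδ'2 : δ' ≤ δ / 2 := (min_le_right _ _).trans (min_le_left _ _)
  have hδ'3 : δ' ≤ ν := (min_le_right _ _).trans (min_le_right _ _)
  have hδδ : δ' ≤ δ := by linarith
  have hinv : 1 / δ ≤ 1 / δ' := one_div_le_one_div_of_le hδ'0 hδδ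
  obtain ⟨K, hKsf, hKlin, hKb, hKs, hKf, -, -, T, u, hT, hTδ, hu0, hus, husol, husf, hubd, hunb, -,
    f, hf, hf2, huf⟩ := main2 (ν * (p : ℝ) ^ (2 * α)) α σ δ' (by positivity) hα hα1 hσ hασ hδ'0
  have hKsm : ∀ (c : ℝ) v, SF v → K (fun x i => c * v x i) = fun x i => c * K v x i := by
    intro c v hv
    rw [smul_eq, hKlin v v hv hv c 0]
    ext x i
    ring
  have kpsf : ∀ v, SF v → SF (Kp p K v) := fun v hv => (hsd.1 _ (hKsf _ (hsd.1 v hv).2.1)).1
  have kplin : ∀ v w, SF v → SF w → ∀ a b : ℝ,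
      Kp p K (fun x i => a * v x i + b * w x i) = fun x i => a * Kp p K v x i + b * Kp p K w x i := by
    intro v w hv hw a b
    unfold Kp
    rw [hsd.2 v w hv hw a b, hKlin _ _ (hsd.1 v hv).2.1 (hsd.1 w hw).2.1]
    rfl
  -- bounds of `Kp`
  have kphs : ∀ (s C : ℝ), (∀ v, SF v → hs (s + σ) (K v) ≤ ENNReal.ofReal C * hs s v) →
      ∀ v, SF v → hs (s + σ) (Kp p K v) ≤
        ENNReal.ofReal ((p : ℝ) ^ (2 * |s + σ|)) * (ENNReal.ofReal C *
          (ENNReal.ofReal ((p : ℝ) ^ (2 * |s|)) * hs s v)) := by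
    intro s C h v hv
    have h1 := (hsh (s + σ) (K (ds p v)) (hKsf _ (hsd.1 v hv).2.1).sp).1
    have h2 := h _ (hsd.1 v hv).2.1
    have h3 := (hsh s v hv.sp).2
    refine h1.trans ?_
    gcongr
    refine h2.trans ?_
    gcongr
  have kpform : ∀ v, SF v → |inner3 v (Kp p K v)| ≤ δ' * inner3 v (MG (lam 1 α) v) := by
    intro v hv
    unfold Kp
    rw [hsi.1 v _ hv.sp (hKsf _ (hsd.1 v hv).2.1).sp]
    refine (hKf _ (hsd.1 v hv).2.1).trans ?_
    exact mul_le_mul_of_nonneg_left (hsi.2.1 α v hα hv.sp) hδ'0.le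
  have hnn : ∀ v, SP v → 0 ≤ inner3 v (MG (lam 1 α) v) := fun v hv =>
    form_nn TDIS.dis hα (by linarith) hv
  -- the operator
  set KT : (V → V) → V → V := fun v x i => Kp p K v x i + QQ p L v x i with hKT
  have ktsf : ∀ v, SF v → SF (KT v) := by
    intro v hv
    have h := comb_sf (kpsf v hv) (hq1 v hv) 1 1
    have e : (fun x i => 1 * Kp p K v x i + 1 * QQ p L v x i) = KT v := by
      ext x i
      simp only [hKT]
      ring
    rwa [e] at h
  have ktlin : ∀ v w, SF v → SF w → ∀ a b : ℝ,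
      KT (fun x i => a * v x i + b * w x i) = fun x i => a * KT v x i + b * KT w x i := by
    intro v w hv hw a b
    ext x i
    simp only [hKT]
    rw [kplin v w hv hw, hq2 v w hv hw]
    ring
  have kteq : ∀ v, (fun x i => KT v x i - L v x i) = fun x => Kp p K v x + RL p L v x := by
    intro v
    ext x i
    simp only [hKT, RL, Pi.add_apply]
    ring
  have rlsf : ∀ v, SF v → SF (RL p L v) := by
    intro v hv
    have h := comb_sf (hq1 v hv) (hL.sf v hv) 1 (-1)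
    have e : (fun x i => 1 * QQ p L v x i + -1 * L v x i) = RL p L v := by
      ext x i
      simp only [RL]
      ring
    rwa [e] at h
  have hdiss : ∀ v, SF v → inner3 v (fun x i => -MG (lam ν α) v x i + KT v x i) ≤ 0 := by
    intro v hv
    have c1 := (MG_sp (TDIS.Mb_lam hν hα) hv.sp).cp
    have e1 : (fun x i => -MG (lam ν α) v x i + KT v x i) =
        fun x i => (-1) * MG (lam ν α) v x i + 1 * KT v x i := by
      ext x i
      ring
    have e2 : KT v = fun x i => 1 * Kp p K v x i + 1 * QQ p L v x i := by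
      ext x i
      simp only [hKT]
      ring
    rw [e1, inner_comb' c1 (ktsf v hv).cp hv.cp, e2,
      inner_comb' (kpsf v hv).cp (hq1 v hv).cp hv.cp, lam_inner]
    have h1 := le_of_abs_le (kpform v hv)
    have h2 := hq3 v hv
    have h3 := hnn v hv.sp
    nlinarith [mul_le_mul_of_nonneg_right hδ'3 h3]
  have hLin : LinS (fun v x i => -MG (lam ν α) v x i + KT v x i) := by
    refine ⟨fun v w hv hw => ?_, fun v hv => ?_, hdiss⟩
    · have h2 : (fun x i => 1 * v x i + -1 * w x i) = v - w := by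
        ext x i
        simp only [Pi.sub_apply]
        ring
      have h3 := MG_comb (TDIS.Mb_lam hν hα) hv.sp hw.sp 1 (-1)
      have h4 := ktlin v w hv hw 1 (-1)
      rw [h2] at h3 h4
      ext x i
      simp only [Pi.sub_apply]
      rw [h3, h4]
      ring
    · have h := comb_sf (MG_sf (TDIS.Mb_lam hν hα) hv) (ktsf v hv) (-1) 1
      have e : (fun x i => -1 * MG (lam ν α) v x i + 1 * KT v x i) =
          fun x i => -MG (lam ν α) v x i + KT v x i := by
        ext x i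
        ring
      rw [e] at h
      exact h.cp.1
  -- the solution
  have hcomm : ∀ v, SF v → (fun x i => -MG (lam ν α) (Dp p v) x i + KT (Dp p v) x i) =
      Dp p (fun x i => -MG (lam (ν * (p : ℝ) ^ (2 * α)) α) v x i + K v x i) := by
    intro v hv
    have hw := smul_sf hv (1 / p : ℝ)
    have h1 := hsi.2.2 ν α _ hν hα hw.sp
    have h2 : MG (lam (ν * (p : ℝ) ^ (2 * α)) α) (fun x i => (1 / p : ℝ) * v x i) =
        fun x i => (1 / p : ℝ) * MG (lam (ν * (p : ℝ) ^ (2 * α)) α) v x i := by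
      rw [smul_eq, MG_comb (TDIS.Mb_lam (by positivity) hα) hv.sp hv.sp]
      ext x i
      ring
    have h3 : Kp p K (Dp p v) = sc p (fun x i => (1 / p : ℝ) * K v x i) := by
      unfold Kp
      rw [Dp_eq, (hsd.1 _ hw).2.2, hKsm _ v hv]
    have h4 : QQ p L (Dp p v) = fun _ _ => 0 := by
      rw [Dp_eq]
      exact hq4 _ hw
    ext x i
    simp only [hKT]
    rw [h3, h4, Dp_eq, h1, h2]
    simp only [Dp, sc]
    ring
  have hsol' : IsSol (fun v x i => -MG (lam ν α) v x i + KT v x i) (Ico 0 T)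
      (fun t => Dp p (u t)) (fun _ _ => 0) :=
    hpd.1 _ _ T u husol fun t ht => hcomm (u t) (husf t ht)
  have husf' : ∀ t ∈ Ico 0 T, SF (Dp p (u t)) := fun t ht => by
    rw [Dp_eq]
    exact (hsd.1 _ (smul_sf (husf t ht) _)).1
  have hunb' : ∀ M : ℝ, ∃ t ∈ Ico 0 T, ∃ x, M < ‖curl (Dp p (u t)) x‖ := by
    intro M
    obtain ⟨t, ht, x, hx⟩ := hunb M
    refine ⟨t, ht, fun j => x j / p, ?_⟩
    rwa [hpd.2.2 (u t) ((husf t ht).1.of_le (by exact_mod_cast le_top)) x]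
  -- the free flow
  obtain ⟨w, hw0, hw1, hw2, hw3, hw4⟩ := TFREE.free TCINF.cinf TC1.c1reg ν α hν hα (by linarith)
    (sc1 p fun x => (1 / p : ℝ) * f x) (hF1 p _ hp1 ⟨contDiff_const.mul hf.1, fun i x => by
      rw [hf.2 i x]⟩).1 (fun x => by
        have h := (husf' 0 ⟨le_rfl, hT⟩).2.2 x
        rw [Fin.sum_univ_three] at h
        have e0 : (fun y => Dp p (u 0) y 0) = fun _ => 0 := by
          ext y
          simp [Dp, huf]
        have e1 : (fun y => Dp p (u 0) y 1) = fun _ => 0 := by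
          ext y
          simp [Dp, huf]
        have e2 : (fun y => Dp p (u 0) y 2) = sc1 p fun x => (1 / p : ℝ) * f x := by
          ext y
          simp [Dp, huf, sc1]
        rw [e0, e1, e2] at h
        simpa [pd] using h)
  refine ⟨KT, ktsf, ktlin, fun s => ?_, fun s hs' v hv => ?_, fun v hv => ?_, hdiss,
    fun T' u' p' hu' hus' => energy_leS hLin hu' hus', T, fun t => Dp p (u t), hT,
    hTδ.trans hδδ, fun x i => ?_, hpd.2.1 T u hus, hsol', husf', fun s t ht => ?_, hunb',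
    fun T' v q hv hvs h0 => maximal hLin hsol' husf' hunb' hv hvs h0, w, ?_, hw1, hw2, hw3, hw4⟩
  · obtain ⟨C, hC⟩ := hKb s
    obtain ⟨C', hC'0, hC'⟩ := hLB2 p s hp1
    refine ⟨2 * ((p : ℝ) ^ (2 * |s + σ|) * (max C 0 * (p : ℝ) ^ (2 * |s|))) + 2 * C', fun v hv => ?_⟩
    rw [kteq]
    refine (hs_add (kpsf v hv).cp (rlsf v hv).cp).trans ?_
    have h1 := kphs s (max C 0) (fun v hv => (hC v hv).trans (by gcongr; exact le_max_left _ _)) v hv
    have h2 := hC' v hv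
    have hm : 0 ≤ max C 0 := le_max_right _ _
    calc 2 * hs (s + σ) (Kp p K v) + 2 * hs (s + σ) (RL p L v) ≤
        2 * (ENNReal.ofReal ((p : ℝ) ^ (2 * |s + σ|)) * (ENNReal.ofReal (max C 0) *
          (ENNReal.ofReal ((p : ℝ) ^ (2 * |s|)) * hs s v))) +
          2 * (ENNReal.ofReal C' * hs s v) := by gcongr
      _ = _ := by
        rw [ENNReal.ofReal_add (by positivity) (by positivity),
          ENNReal.ofReal_mul (p := 2) (by norm_num), ENNReal.ofReal_mul (p := 2) (by norm_num),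
          ENNReal.ofReal_mul (by positivity), ENNReal.ofReal_mul hm, add_mul]
        simp only [ENNReal.ofReal_ofNat]
        ring
  · rw [kteq]
    refine (hs_add (kpsf v hv).cp (rlsf v hv).cp).trans ?_
    have h1 := kphs s δ' (hKs s (hs'.trans hinv)) v hv
    have h2 := hR1 s hs' v hv
    have h3 : (p : ℝ) ^ (2 * |s + σ|) * (δ' * (p : ℝ) ^ (2 * |s|)) ≤ δ / 4 := by
      refine le_trans ?_ hδ'1
      have e1 : (p : ℝ) ^ (2 * |s + σ|) ≤ (p : ℝ) ^ (2 * (1 / δ + |σ|)) := by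
        refine Real.rpow_le_rpow_of_exponent_le hpR ?_
        have := abs_add_le s σ
        linarith
      have e2 : (p : ℝ) ^ (2 * |s|) ≤ (p : ℝ) ^ (2 * (1 / δ)) :=
        Real.rpow_le_rpow_of_exponent_le hpR (by linarith)
      calc (p : ℝ) ^ (2 * |s + σ|) * (δ' * (p : ℝ) ^ (2 * |s|)) ≤
          (p : ℝ) ^ (2 * (1 / δ + |σ|)) * (δ' * (p : ℝ) ^ (2 * (1 / δ))) := by gcongr
        _ = A * δ' := by rw [hA]; ring
    have h4 : ENNReal.ofReal ((p : ℝ) ^ (2 * |s + σ|)) * (ENNReal.ofReal δ' *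
        (ENNReal.ofReal ((p : ℝ) ^ (2 * |s|)) * hs s v)) ≤ ENNReal.ofReal (δ / 4) * hs s v := by
      rw [← mul_assoc, ← mul_assoc, ← ENNReal.ofReal_mul (by positivity),
        ← ENNReal.ofReal_mul (by positivity), mul_assoc ((p : ℝ) ^ (2 * |s + σ|))]
      gcongr
    calc 2 * hs (s + σ) (Kp p K v) + 2 * hs (s + σ) (RL p L v) ≤
        2 * (ENNReal.ofReal (δ / 4) * hs s v) + 2 * (ENNReal.ofReal (δ / 4) * hs s v) := by
          gcongr
          exact h1.trans h4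
      _ = ENNReal.ofReal δ * hs s v := by
        have e : ENNReal.ofReal δ = 4 * ENNReal.ofReal (δ / 4) := by
          rw [← ENNReal.ofReal_ofNat, ← ENNReal.ofReal_mul (by norm_num)]
          congr 1
          ring
        rw [e]
        ring
  · rw [kteq]
    have e : (fun x => Kp p K v x + RL p L v x) =
        fun x i => 1 * Kp p K v x i + 1 * RL p L v x i := by
      ext x i
      simp only [Pi.add_apply]
      ring
    rw [e, inner_comb' (kpsf v hv).cp (rlsf v hv).cp hv.cp, one_mul, one_mul]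
    have h1 := kpform v hv
    have h2 := hR2 v hv
    have h3 := hnn v hv.sp
    refine (abs_add_le _ _).trans ?_
    nlinarith [mul_le_mul_of_nonneg_right hδ'2 h3]
  · simp only [Dp]
    rw [abs_mul, abs_of_pos (by positivity)]
    have h1 := hu0 (fun j => p * x j) i
    have h2 : (1 : ℝ) / p ≤ 1 := by
      rw [div_le_one hp0]
      exact hpR
    calc 1 / (p : ℝ) * |u 0 (fun j => p * x j) i| ≤ 1 * δ' := by gcongr
      _ ≤ δ := by linarith
  · obtain ⟨C, hC⟩ := hubd s t ht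
    refine ⟨(p : ℝ) ^ (2 * |s|) * (((1 : ℝ) / p) ^ 2 * max C 0), fun τ hτ => ?_⟩
    have hτT : τ ∈ Ico 0 T := ⟨hτ.1, hτ.2.trans_lt ht.2⟩
    have h1 := (hsh s (fun x i => (1 / p : ℝ) * u τ x i) (smul_sf (husf τ hτT) _).sp).1
    change hs s (sc p (fun x i => (1 / p : ℝ) * u τ x i)) ≤ _
    refine h1.trans ?_
    rw [hs_smul, ENNReal.ofReal_mul (by positivity), ENNReal.ofReal_mul (by positivity)]
    gcongr
    exact (hC τ hτ).trans (ENNReal.ofReal_le_ofReal (le_max_left _ _))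
  · rw [hw0]
    ext x i
    simp only [Dp, huf, sc1]
    fin_cases i <;> simp

end Pool.Agent.H306.HF
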