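import Pool.Agent.H306.HF.Stm
import Pool.Agent.H306.DS.Frac

/-! Dilation and Fourier integrals (S_F1, helper345). -/

noncomputable section

namespace Pool.Agent.H306.HF.SF1

open Set MeasureTheory

open scoped Real ContDiff ENNReal ComplexConjugate

open Pool.Agent.H306.CK Pool.Agent.H306.DS Pool.Agent.H306.HD Pool.Agent.H306.HF

theorem sc1_spf (p : ℕ) {f : V → ℝ} (hf : SPf f) : SPf (sc1 p f) := by
  constructor
  · have h : ContDiff ℝ ∞ (fun x : V => (fun j => (p : ℝ) * x j : V)) :=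
      contDiff_pi.2 fun j => contDiff_const.mul (contDiff_apply ℝ ℝ j)
    exact hf.1.comp h
  · intro i x
    have h1 := periodic_int hf.2 i p (fun j => (p : ℝ) * x j)
    have h2 : (fun j => (p : ℝ) * (x + Pi.single i (2 * Real.pi) : V) j : V) =
        (fun j => (p : ℝ) * x j : V) + Pi.single i (((p : ℤ) : ℝ) * (2 * Real.pi)) := by
      funext j
      rw [Pi.add_apply, Pi.add_apply]
      by_cases hj : j = i
      · subst hj
        rw [Pi.single_eq_same, Pi.single_eq_same]
        push_cast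
        ring
      · rw [Pi.single_eq_of_ne hj, Pi.single_eq_of_ne hj]
        ring
    unfold sc1
    rw [h2]
    exact h1

theorem kx_dil (p : ℕ) (k : Fin 3 → ℤ) (x : V) :
    kx k (fun j => (p : ℝ) * x j) = kx (pk p k) x := by
  unfold kx pk
  refine Finset.sum_congr rfl fun j _ => ?_
  push_cast
  ring

theorem tg_dil (p : ℕ) (c : ℂ) (k : Fin 3 → ℤ) (x : V) :
    tg c k (fun j => (p : ℝ) * x j) = tg c (pk p k) x := by
  unfold tg
  rw [kx_dil]

/-- the coefficients -/
def cf (f : V → ℝ) (k : Fin 3 → ℤ) : ℂ := ((((2 * π) ^ 3)⁻¹ : ℝ) : ℂ) * fc f k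

theorem sc1_eq (p : ℕ) {f : V → ℝ} (hf : SPf f) :
    sc1 p f = fun x => ∑' k, tg (cf f k) (pk p k) x := by
  funext x
  have h := four_inv hf (fun j => (p : ℝ) * x j)
  simp only [tg_dil] at h
  exact h.tsum_eq.symm

theorem cf_bound {f : V → ℝ} (hf : SPf f) : ∃ C : ℝ, ∀ k, ‖cf f k‖ ≤ C * W (-3) k := by
  obtain ⟨C, hC0, hC⟩ := fc_decay hf (-3)
  have hpi := Real.pi_pos
  refine ⟨((2 * π) ^ 3)⁻¹ * C, fun k => ?_⟩
  unfold cf
  rw [norm_mul, Complex.norm_real, Real.norm_of_nonneg (by positivity), mul_assoc]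
  exact mul_le_mul_of_nonneg_left (hC k) (by positivity)

theorem fc_sc1 (p : ℕ) {f : V → ℝ} (hf : SPf f) (l : Fin 3 → ℤ) :
    HasSum (fun k => ((2 * π : ℝ) : ℂ) ^ 3 / 2 * ((if l = pk p k then cf f k else 0) +
      (if l = -pk p k then conj (cf f k) else 0))) (fc (sc1 p f) l) := by
  obtain ⟨C, hC⟩ := cf_bound hf
  have h1 := fc_tsum (g := fun k => tg (cf f k) (pk p k))
    (fun k => (tg_contDiff _ _).continuous) (W_summable.mul_left C)
    (fun k x => (tg_le _ _ x).trans (hC k)) l
  rw [← sc1_eq p hf] at h1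
  simp only [fc_tg] at h1
  exact h1

theorem pk_inj {p : ℕ} (hp : 1 ≤ p) {k m : Fin 3 → ℤ} : pk p m = pk p k ↔ m = k := by
  constructor
  · intro h
    funext j
    have h1 : (p : ℤ) * m j = p * k j := congrFun h j
    have h2 : (p : ℤ) ≠ 0 := by exact_mod_cast (by omega : p ≠ 0)
    exact mul_left_cancel₀ h2 h1
  · rintro rfl
    rfl

theorem pk_neg (p : ℕ) (k : Fin 3 → ℤ) : -pk p k = pk p (-k) := by
  funext j
  unfold pk
  rw [Pi.neg_apply, Pi.neg_apply]
  ring

theorem f1 : S_F1 := by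
  intro p f hp hf
  refine ⟨sc1_spf p hf, fun m => ?_, fun l hl => ?_⟩
  · have h1 := fc_sc1 p hf (pk p m)
    have h2 : HasSum (fun k => ((2 * π : ℝ) : ℂ) ^ 3 / 2 *
        ((if pk p m = pk p k then cf f k else 0) +
          (if pk p m = -pk p k then conj (cf f k) else 0)))
        (((2 * π : ℝ) : ℂ) ^ 3 / 2 * (cf f m + conj (cf f (-m)))) := by
      refine HasSum.mul_left _ (HasSum.add ?_ ?_)
      · have h3 := hasSum_ite_eq m (cf f m)
        refine h3.congr_fun fun k => ?_
        by_cases h : m = k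
        · subst h; simp
        · rw [if_neg (fun h' => h (pk_inj hp |>.1 h')), if_neg (fun h' => h h'.symm)]
      · have h3 := hasSum_ite_eq (-m) (conj (cf f (-m)))
        refine h3.congr_fun fun k => ?_
        rw [pk_neg]
        by_cases h : m = -k
        · subst h; simp
        · rw [if_neg (fun h' => h (pk_inj hp |>.1 h')), if_neg (fun h' => h (by rw [h', neg_neg]))]
    rw [h1.unique h2]
    have h5 : conj (cf f (-m)) = cf f m := by
      unfold cf
      rw [map_mul, Complex.conj_ofReal, fc_conj]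
    rw [h5]
    unfold cf
    have hpi := Real.pi_pos
    have h6 : ((2 * π : ℝ) : ℂ) ≠ 0 := by
      exact_mod_cast (by positivity : (2 * π : ℝ) ≠ 0)
    push_cast
    push_cast at h6
    field_simp
    ring
  · have h1 := fc_sc1 p hf l
    have h2 : ∀ k, l ≠ pk p k := fun k h => hl fun j => ⟨k j, congrFun h j⟩
    have h3 : ∀ k, l ≠ -pk p k := fun k h => h2 (-k) (by rw [h, pk_neg])
    simp only [h2, h3, if_false, add_zero, mul_zero] at h1
    exact h1.unique hasSum_zero

end Pool.Agent.H306.HF.SF1
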