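import Pool.Agent.H306.HF.Stm

/-! Project HF (helper306): `S_F2` (proof by helper30, after `DS.Frac`). -/

noncomputable section

namespace Pool.Agent.H306.HF.SF2

open Set MeasureTheory Filter

open scoped Real ContDiff ENNReal ComplexConjugate

open Pool.Agent.H306.CK Pool.Agent.H306.DS Pool.Agent.H306.HD

theorem W_pk {p : ℕ} (hp : 1 ≤ p) {M : ℝ} (hM : M ≤ 0) (k : Fin 3 → ℤ) :
    W M (pk p k) ≤ W M k := by
  unfold W pk
  apply Real.rpow_le_rpow_of_nonpos (W_base k) _ hM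
  have h1 : ∀ j, (k j : ℝ) ^ 2 ≤ (((p : ℤ) * k j : ℤ) : ℝ) ^ 2 := by
    intro j
    push_cast
    have hp' : (1 : ℝ) ≤ (p : ℝ) := by exact_mod_cast hp
    have h2 : (1 : ℝ) ≤ (p : ℝ) ^ 2 := one_le_pow₀ hp'
    rw [mul_pow]
    nlinarith [sq_nonneg (k j : ℝ)]
  have h3 := Finset.sum_le_sum (s := Finset.univ) fun j (_ : j ∈ Finset.univ) => h1 j
  linarith

theorem pk_neg (p : ℕ) (k : Fin 3 → ℤ) : pk p (-k) = -pk p k := by
  funext j
  unfold pk
  simp only [Pi.neg_apply, mul_neg]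

section

variable {p : ℕ}

theorem coef (hp : 1 ≤ p) {f : V → ℝ} (hf : SPf f) {M : ℝ} (hM : M ≤ 0) : ∃ C : ℝ, 0 ≤ C ∧ ∀ k,
    ‖((((2 * π) ^ 3)⁻¹ : ℝ) : ℂ) * fc f (pk p k)‖ ≤ C * W M k := by
  have hpi := Real.pi_pos
  obtain ⟨C, hC0, hC⟩ := fc_decay hf M
  refine ⟨((2 * π) ^ 3)⁻¹ * C, by positivity, fun k => ?_⟩
  rw [norm_mul, Complex.norm_real, Real.norm_eq_abs, abs_of_pos (by positivity)]
  calc ((2 * π) ^ 3)⁻¹ * ‖fc f (pk p k)‖ ≤ ((2 * π) ^ 3)⁻¹ * (C * W M k) := by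
        have h1 := mul_le_mul_of_nonneg_left (W_pk hp hM k) hC0
        have h2 := (hC (pk p k)).trans h1
        exact mul_le_mul_of_nonneg_left h2 (by positivity)
    _ = _ := by ring

theorem bound (hp : 1 ≤ p) {f : V → ℝ} (hf : SPf f) (q : ℕ) : ∃ C : ℝ, ∀ k x,
    ‖iteratedFDeriv ℝ q (tg (((((2 * π) ^ 3)⁻¹ : ℝ) : ℂ) * fc f (pk p k)) k) x‖ ≤
      C * W (-3) k := by
  obtain ⟨C, hC0, hC⟩ := coef hp hf (M := -3 - q) (by
    have : (0 : ℝ) ≤ (q : ℝ) := Nat.cast_nonneg q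
    linarith)
  refine ⟨3 ^ q * C, fun k x => (tg_iter k q _ x).trans ?_⟩
  have hW := W_pos 1 k
  have h1 : W (-3) k = W 1 k ^ q * W (-3 - q) k := by
    have : W 1 k ^ q = W q k := by
      unfold W
      rw [Real.rpow_one, Real.rpow_natCast]
    rw [this, ← W_add]
    congr 1
    ring
  rw [h1, mul_pow]
  calc 3 ^ q * W 1 k ^ q * ‖((((2 * π) ^ 3)⁻¹ : ℝ) : ℂ) * fc f (pk p k)‖ ≤
        3 ^ q * W 1 k ^ q * (C * W (-3 - q) k) := by
        gcongr
        exact hC k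
    _ = _ := by ring

theorem spf (hp : 1 ≤ p) {f : V → ℝ} (hf : SPf f) : SPf (ds1 p f) := by
  constructor
  · choose C hC using fun q => bound hp hf q
    exact contDiff_tsum (v := fun q k => C q * W (-3) k) (fun k => tg_contDiff _ k)
      (fun q _ => W_summable.mul_left _) (fun q k x _ => hC q k x)
  · intro i x
    unfold ds1
    exact tsum_congr fun k => tg_per _ k i x

theorem fc_ds1 (hp : 1 ≤ p) {f : V → ℝ} (hf : SPf f) (l : Fin 3 → ℤ) :
    fc (ds1 p f) l = fc f (pk p l) := by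
  have hpi := Real.pi_pos
  obtain ⟨C, hC⟩ := bound hp hf 0
  have h1 := fc_tsum (g := fun k => tg (((((2 * π) ^ 3)⁻¹ : ℝ) : ℂ) * fc f (pk p k)) k)
    (fun k => (tg_contDiff _ k).continuous) (W_summable.mul_left C) (fun k x => by
      have := hC k x
      rwa [norm_iteratedFDeriv_zero, Real.norm_eq_abs] at this) l
  simp only [fc_tg] at h1
  set a : (Fin 3 → ℤ) → ℂ := fun k => ((((2 * π) ^ 3)⁻¹ : ℝ) : ℂ) * fc f (pk p k) with ha
  have h2 : HasSum (fun k => ((2 * π : ℝ) : ℂ) ^ 3 / 2 *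
      ((if l = k then a k else 0) + (if l = -k then conj (a k) else 0)))
      (((2 * π : ℝ) : ℂ) ^ 3 / 2 * (a l + conj (a (-l)))) := by
    refine HasSum.mul_left _ (HasSum.add ?_ ?_)
    · have h3 := hasSum_ite_eq l (a l)
      refine h3.congr_fun fun k => ?_
      by_cases h : l = k
      · subst h; simp
      · rw [if_neg h, if_neg (fun h' => h h'.symm)]
    · have h3 := hasSum_ite_eq (-l) (conj (a (-l)))
      refine h3.congr_fun fun k => ?_
      by_cases h : l = -k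
      · subst h; simp
      · rw [if_neg h, if_neg (fun h' => h (by rw [h', neg_neg]))]
  have h4 : fc (ds1 p f) l = ((2 * π : ℝ) : ℂ) ^ 3 / 2 * (a l + conj (a (-l))) := h1.unique h2
  rw [h4]
  have h5 : conj (a (-l)) = a l := by
    simp only [ha]
    rw [map_mul, Complex.conj_ofReal, pk_neg, fc_conj]
  rw [h5]
  simp only [ha]
  have h6 : ((2 * π : ℝ) : ℂ) ≠ 0 := by
    exact_mod_cast (by positivity : (2 * π : ℝ) ≠ 0)
  push_cast
  push_cast at h6
  field_simp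
  ring

end

theorem f2 : S_F2 := fun _ _ hp hf => ⟨spf hp hf, fc_ds1 hp hf⟩

end Pool.Agent.H306.HF.SF2
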