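import Pool.Agent.H306.HF.Stm

/-! Smallness of `Q L Q - L` in the Sobolev scale. -/

noncomputable section

namespace Pool.Agent.H306.HF.SLB

open Set MeasureTheory Filter

open scoped Real ContDiff ENNReal

open Pool.Agent.H306.CK Pool.Agent.H306.DS Pool.Agent.H306.HD Pool.Agent.H306.HF

theorem cond_neg (p : ℕ) (k : Fin 3 → ℤ) : (dv p (-k) ∧ -k ≠ 0) ↔ (dv p k ∧ k ≠ 0) := by
  have h1 : dv p (-k) ↔ dv p k := by
    unfold dv
    refine forall_congr' fun j => ?_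
    rw [Pi.neg_apply, dvd_neg]
  rw [h1, neg_ne_zero]

theorem Mb_qv (p : ℕ) : Mb (qv p) := by
  refine ⟨fun k => ?_, 1, 0, zero_le_one, fun k => ?_⟩
  · unfold qv
    by_cases h : dv p k ∧ k ≠ 0
    · rw [if_pos h, if_pos ((cond_neg p k).2 h)]
    · rw [if_neg h, if_neg (fun h' => h ((cond_neg p k).1 h'))]
  · rw [W_zero]
    unfold qv
    split_ifs <;> norm_num

theorem Mb_hv (p : ℕ) : Mb (hv p) := by
  refine ⟨fun k => ?_, 1, 0, zero_le_one, fun k => ?_⟩
  · unfold hv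
    by_cases h : dv p k ∧ k ≠ 0
    · rw [if_pos h, if_pos ((cond_neg p k).2 h)]
    · rw [if_neg h, if_neg (fun h' => h ((cond_neg p k).1 h'))]
  · rw [W_zero]
    unfold hv
    split_ifs <;> norm_num

theorem qh (p : ℕ) (k : Fin 3 → ℤ) : qv p k + hv p k = 1 := by
  unfold qv hv
  split_ifs <;> norm_num

theorem hv_sq (p : ℕ) {g : ℝ} (hg : 0 ≤ g) (t : ℝ) (k : Fin 3 → ℤ) :
    hv p k ^ 2 * W t k ≤ (1 + (p : ℝ) ^ 2) ^ (-g) * W (t + g) k := by
  have hW := W_pos (t + g) k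
  have hp : 0 ≤ (1 + (p : ℝ) ^ 2) ^ (-g) := Real.rpow_nonneg (by positivity) _
  unfold hv
  by_cases h : dv p k ∧ k ≠ 0
  · rw [if_pos h, one_pow, one_mul]
    have hk : 1 + (p : ℝ) ^ 2 ≤ 1 + ∑ j, (k j : ℝ) ^ 2 := by
      obtain ⟨j, hj⟩ : ∃ j, k j ≠ 0 := by
        by_contra hcon
        push Not at hcon
        exact h.2 (funext hcon)
      have h1 : (p : ℤ) ≤ |k j| := Int.le_of_dvd (abs_pos.2 hj) ((dvd_abs _ _).2 (h.1 j))
      have h2 : (p : ℝ) ≤ |(k j : ℝ)| := by exact_mod_cast h1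
      have h3 : (p : ℝ) ^ 2 ≤ (k j : ℝ) ^ 2 := by
        rw [← sq_abs (k j : ℝ)]
        exact pow_le_pow_left₀ (Nat.cast_nonneg p) h2 2
      have h4 := Finset.single_le_sum (f := fun j => (k j : ℝ) ^ 2) (fun j _ => sq_nonneg _)
        (Finset.mem_univ j)
      linarith
    have h1 : W (-g) k ≤ (1 + (p : ℝ) ^ 2) ^ (-g) := by
      unfold W
      exact Real.rpow_le_rpow_of_nonpos (by positivity) hk (by linarith)
    calc W t k = W (-g) k * W (t + g) k := by
          rw [← W_add]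
          congr 1
          ring
      _ ≤ _ := mul_le_mul_of_nonneg_right h1 hW.le
  · rw [if_neg h, zero_pow two_ne_zero, zero_mul]
    positivity

theorem qv_sq (p : ℕ) (t : ℝ) (k : Fin 3 → ℤ) : qv p k ^ 2 * W t k ≤ 1 * W t k := by
  have hW := W_pos t k
  refine mul_le_mul_of_nonneg_right ?_ hW.le
  unfold qv
  split_ifs <;> norm_num

/-- the decomposition of a field -/
theorem dec (p : ℕ) {v : V → V} (hv' : SP v) :
    v = fun x i => 1 * MG (qv p) v x i + 1 * MG (hv p) v x i := by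
  refine fc_ext hv' (comb_sp (MG_sp (Mb_qv p) hv') (MG_sp (Mb_hv p) hv') 1 1) fun i k => ?_
  rw [fc_comb (MG_sp (Mb_qv p) hv') (MG_sp (Mb_hv p) hv'), fc_MG (Mb_qv p) hv',
    fc_MG (Mb_hv p) hv']
  have h := qh p k
  have h2 : ((qv p k : ℝ) : ℂ) + ((hv p k : ℝ) : ℂ) = 1 := by
    rw [← Complex.ofReal_add, h, Complex.ofReal_one]
  push_cast
  linear_combination -(fc (fun x => v x i) k) * h2

theorem RL_eq {σ' : ℝ} {L : (V → V) → V → V} (hL : LO σ' L) (p : ℕ) {v : V → V} (hv' : SF v) :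
    RL p L v = fun x => (fun i => (-1) * MG (hv p) (L v) x i) +
      fun i => (-1) * MG (qv p) (L (MG (hv p) v)) x i := by
  have hq := MG_sf (Mb_qv p) hv'
  have hh := MG_sf (Mb_hv p) hv'
  have e1 : L v = fun x i => 1 * L (MG (qv p) v) x i + 1 * L (MG (hv p) v) x i := by
    rw [← hL.comb _ _ hq hh 1 1, ← dec p hv'.sp]
  have e2 : MG (qv p) (L v) = fun x i => 1 * MG (qv p) (L (MG (qv p) v)) x i +
      1 * MG (qv p) (L (MG (hv p) v)) x i := by
    rw [← MG_comb (Mb_qv p) (hL.sf _ hq).sp (hL.sf _ hh).sp 1 1, ← e1]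
  have e3 := dec p (hL.sf v hv').sp
  funext x i
  have h2 := congrFun (congrFun e2 x) i
  have h3 := congrFun (congrFun e3 x) i
  show MG (qv p) (L (MG (qv p) v)) x i - L v x i = (-1) * MG (hv p) (L v) x i +
    (-1) * MG (qv p) (L (MG (hv p) v)) x i
  linarith

theorem core {σ σ' S C : ℝ} {L : (V → V) → V → V} (hσ : σ ≤ σ') (hL : LO σ' L) (hC0 : 0 ≤ C)
    (hC : ∀ s : ℝ, |s| ≤ S → ∀ v, SF v → hs (s + σ') (L v) ≤ ENNReal.ofReal C * hs s v)
    (p : ℕ) {s : ℝ} (hs1 : |s| ≤ S) (hs2 : |s - (σ' - σ)| ≤ S) {v : V → V} (hv' : SF v) :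
    hs (s + σ) (RL p L v) ≤
      ENNReal.ofReal (4 * C * (1 + (p : ℝ) ^ 2) ^ (-(σ' - σ))) * hs s v := by
  obtain ⟨g, hg⟩ : ∃ g, g = σ' - σ := ⟨_, rfl⟩
  have hg0 : 0 ≤ g := by rw [hg]; linarith
  rw [← hg] at hs2 ⊢
  obtain ⟨a, ha⟩ : ∃ a, a = (1 + (p : ℝ) ^ 2) ^ (-g) := ⟨_, rfl⟩
  have ha0 : 0 ≤ a := by rw [ha]; exact Real.rpow_nonneg (by positivity) _
  have hh := MG_sf (Mb_hv p) hv'
  have hLv := hL.sf v hv'
  have hLh := hL.sf _ hh
  have t1 : hs (s + σ) (MG (hv p) (L v)) ≤ ENNReal.ofReal a * (ENNReal.ofReal C * hs s v) := by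
    refine (hs_MG_le (Mb_hv p) hLv.sp (C := a) (s := s + σ) (t := s + σ') (fun k => ?_) ha0).trans
      (mul_le_mul_right (hC s hs1 v hv') _)
    have h := hv_sq p hg0 (s + σ) k
    rw [show s + σ + g = s + σ' by rw [hg]; ring] at h
    rw [ha]
    exact h
  have t2 : hs (s + σ) (MG (qv p) (L (MG (hv p) v))) ≤
      ENNReal.ofReal a * (ENNReal.ofReal C * hs s v) := by
    have h1 : hs (s + σ) (MG (qv p) (L (MG (hv p) v))) ≤ hs (s - g + σ') (L (MG (hv p) v)) := by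
      have h := hs_MG_le (Mb_qv p) hLh.sp (C := 1) (s := s + σ) (t := s + σ)
        (fun k => qv_sq p _ k) zero_le_one
      rw [ENNReal.ofReal_one, one_mul] at h
      rw [show s - g + σ' = s + σ by rw [hg]; ring]
      exact h
    have h2 : hs (s - g) (MG (hv p) v) ≤ ENNReal.ofReal a * hs s v := by
      refine hs_MG_le (Mb_hv p) hv'.sp (C := a) (s := s - g) (t := s) (fun k => ?_) ha0
      have h := hv_sq p hg0 (s - g) k
      rw [sub_add_cancel] at h
      rw [ha]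
      exact h
    refine h1.trans ((hC (s - g) hs2 _ hh).trans ?_)
    refine (mul_le_mul_right h2 _).trans (le_of_eq ?_)
    rw [← mul_assoc, ← mul_assoc, mul_comm (ENNReal.ofReal C)]
  have hA : CP (fun x => (fun i => (-1) * MG (hv p) (L v) x i : V)) := by
    have h := comb_sp (MG_sp (Mb_hv p) hLv.sp) (MG_sp (Mb_hv p) hLv.sp) (-1) 0
    have h2 := h.cp
    simp only [zero_mul, add_zero] at h2
    exact h2
  have hB : CP (fun x => (fun i => (-1) * MG (qv p) (L (MG (hv p) v)) x i : V)) := by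
    have h := comb_sp (MG_sp (Mb_qv p) hLh.sp) (MG_sp (Mb_qv p) hLh.sp) (-1) 0
    have h2 := h.cp
    simp only [zero_mul, add_zero] at h2
    exact h2
  rw [RL_eq hL p hv']
  refine (hs_add hA hB).trans ?_
  rw [hs_smul, hs_smul, show ((-1 : ℝ)) ^ 2 = 1 by norm_num, ENNReal.ofReal_one, one_mul, one_mul]
  have h4 : ENNReal.ofReal (4 * C * a) * hs s v =
      2 * (ENNReal.ofReal a * (ENNReal.ofReal C * hs s v)) +
        2 * (ENNReal.ofReal a * (ENNReal.ofReal C * hs s v)) := by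
    rw [ENNReal.ofReal_mul (by positivity), ENNReal.ofReal_mul (by norm_num)]
    rw [show ENNReal.ofReal 4 = 4 by norm_num]
    ring
  rw [← ha, h4]
  exact add_le_add (mul_le_mul_right t1 _) (mul_le_mul_right t2 _)

/-- S_LB -/
theorem lb : S_LB := by
  intro σ σ' L hσ hL
  have hg : 0 < σ' - σ := by linarith
  constructor
  · intro S ε hε
    obtain ⟨C, hC⟩ := hL.bd (S + (σ' - σ))
    have hC' : ∀ s : ℝ, |s| ≤ S + (σ' - σ) → ∀ v, SF v →
        hs (s + σ') (L v) ≤ ENNReal.ofReal (max C 0) * hs s v := by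
      intro s hs1 v hv'
      refine (hC s hs1 v hv').trans ?_
      exact mul_le_mul_left (ENNReal.ofReal_le_ofReal (le_max_left _ _)) _
    have hlim : Tendsto (fun p : ℕ => 4 * max C 0 * (1 + (p : ℝ) ^ 2) ^ (-(σ' - σ))) atTop
        (nhds 0) := by
      have h1 : Tendsto (fun p : ℕ => 1 + (p : ℝ) ^ 2) atTop atTop :=
        tendsto_atTop_add_const_left _ _
          ((tendsto_pow_atTop two_ne_zero).comp tendsto_natCast_atTop_atTop)
      have h2 := ((tendsto_rpow_neg_atTop hg).comp h1).const_mul (4 * max C 0)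
      rw [mul_zero] at h2
      exact h2
    obtain ⟨p₀, hp₀⟩ := eventually_atTop.1 (hlim.eventually (gt_mem_nhds hε))
    refine ⟨p₀, fun p hp s hs1 v hv' => ?_⟩
    have hs3 : |s| ≤ S + (σ' - σ) := by linarith
    have hs2 : |s - (σ' - σ)| ≤ S + (σ' - σ) := by
      refine (abs_sub _ _).trans ?_
      rw [abs_of_pos hg]
      linarith
    refine (core hσ.le hL (le_max_right _ _) hC' p hs3 hs2 hv').trans ?_
    exact mul_le_mul_left (ENNReal.ofReal_le_ofReal (hp₀ p hp).le) _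
  · intro p s _
    obtain ⟨C, hC⟩ := hL.bd (|s| + (σ' - σ))
    have hC' : ∀ t : ℝ, |t| ≤ |s| + (σ' - σ) → ∀ v, SF v →
        hs (t + σ') (L v) ≤ ENNReal.ofReal (max C 0) * hs t v := by
      intro t hs1 v hv'
      refine (hC t hs1 v hv').trans ?_
      exact mul_le_mul_left (ENNReal.ofReal_le_ofReal (le_max_left _ _)) _
    have hp0 : 0 ≤ (1 + (p : ℝ) ^ 2) ^ (-(σ' - σ)) := Real.rpow_nonneg (by positivity) _
    refine ⟨4 * max C 0 * (1 + (p : ℝ) ^ 2) ^ (-(σ' - σ)), by positivity, fun v hv' => ?_⟩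
    refine core hσ.le hL (le_max_right _ _) hC' p (by linarith) ?_ hv'
    refine (abs_sub _ _).trans ?_
    rw [abs_of_pos hg]

end Pool.Agent.H306.HF.SLB

end
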