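import Pool.Agent.H306.HF.Stm

/-! Properties of the compression `Q L Q`. -/

set_option autoImplicit false

noncomputable section

namespace Pool.Agent.H306.HF.SLD

open Set MeasureTheory

open scoped Real ContDiff ENNReal ComplexConjugate

open Pool.Agent.H306.CK Pool.Agent.H306.DS Pool.Agent.H306.HD

theorem Mb_qv (p : ℕ) : Mb (qv p) := by
  constructor
  · intro k
    have h1 : (dv p (-k) ∧ -k ≠ 0) ↔ (dv p k ∧ k ≠ 0) := by
      unfold dv
      simp only [Pi.neg_apply, dvd_neg, ne_eq, neg_eq_zero]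
    unfold qv
    by_cases h : dv p k ∧ k ≠ 0
    · rw [if_pos h, if_pos (h1.2 h)]
    · rw [if_neg h, if_neg (fun h' => h (h1.1 h'))]
  · refine ⟨1, 0, zero_le_one, fun k => ?_⟩
    rw [W_zero, one_mul]
    unfold qv
    split_ifs
    · simp
    · simp

theorem fc_zero (k : Fin 3 → ℤ) : fc (fun _ : V => (0 : ℝ)) k = 0 := by
  unfold fc
  simp

theorem fc_one (k : Fin 3 → ℤ) : fc (fun _ => 1) k = if k = 0 then ((2 * π : ℝ) : ℂ) ^ 3 else 0 := by
  rw [fc_eq]
  unfold fcC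
  simp only [Complex.ofReal_one, one_mul]
  rw [int_ex]
  simp only [neg_eq_zero]

theorem fc_const (c : ℝ) (k : Fin 3 → ℤ) :
    fc (fun _ => c) k = if k = 0 then c * ((2 * π : ℝ) : ℂ) ^ 3 else 0 := by
  have h := fc_smul c (fun _ => 1) k
  simp only [mul_one] at h
  rw [h, fc_one]
  split_ifs <;> simp

theorem fc_zero_real (f : V → ℝ) : (((fc f 0).re : ℝ) : ℂ) = fc f 0 := by
  have h := fc_conj f 0
  rw [neg_zero] at h
  exact Complex.conj_eq_iff_re.1 h

theorem sp_const (c : V) : SP (fun _ : V => c) := ⟨contDiff_const, fun _ _ => rfl⟩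

theorem MG_zero {m : (Fin 3 → ℤ) → ℝ} (hm : Mb m) : MG m (fun _ _ => 0) = fun _ _ => 0 := by
  have h0 : SP (fun (_ : V) (_ : Fin 3) => (0 : ℝ)) := sp_const 0
  refine fc_ext (MG_sp hm h0) h0 fun i k => ?_
  rw [fc_MG hm h0, fc_zero, mul_zero]

/-- Self-adjointness of multipliers. -/
theorem inner_MG {m : (Fin 3 → ℤ) → ℝ} (hm : Mb m) {v w : V → V} (hv : SP v) (hw : SP w) :
    inner3 v (MG m w) = inner3 (MG m v) w := by
  have h1 := parseval3 hv.cp (MG_sp hm hw).cp
  have h2 := parseval3 (MG_sp hm hv).cp hw.cp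
  have h3 : (fun k => ∑ i, conj (fc (fun x => v x i) k) * fc (fun x => MG m w x i) k) =
      fun k => ∑ i, conj (fc (fun x => MG m v x i) k) * fc (fun x => w x i) k := by
    ext k
    refine Finset.sum_congr rfl fun i _ => ?_
    rw [fc_MG hm hv, fc_MG hm hw, map_mul, Complex.conj_ofReal]
    ring
  rw [h3] at h1
  have h4 := h1.unique h2
  have h5 : (2 * π) ^ 3 * inner3 v (MG m w) = (2 * π) ^ 3 * inner3 (MG m v) w := by
    exact_mod_cast h4
  have hpi := Real.pi_pos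
  have h6 : (2 * π) ^ 3 ≠ 0 := by positivity
  exact mul_left_cancel₀ h6 h5

theorem sc_sp (hF : S_F1) {p : ℕ} (hp : 1 ≤ p) {v : V → V} (hv : SP v) : SP (sc p v) := by
  have h1 : ∀ i, SPf (fun x => sc p v x i) := fun i => (hF p (fun x => v x i) hp (hv.comp i)).1
  refine ⟨contDiff_pi.2 fun i => (h1 i).1, fun j x => ?_⟩
  ext i
  exact (h1 i).2 j x

theorem MG_sc (hF : S_F1) {p : ℕ} (hp : 1 ≤ p) {v : V → V} (hv : SP v) :
    ∃ c : V, MG (qv p) (sc p v) = fun _ => c := by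
  have hs := sc_sp hF hp hv
  refine ⟨fun i => ((2 * π) ^ 3)⁻¹ * (fc (fun x => sc p v x i) 0).re, ?_⟩
  refine fc_ext (MG_sp (Mb_qv p) hs) (sp_const _) fun i k => ?_
  rw [fc_MG (Mb_qv p) hs, fc_const]
  by_cases hk : k = 0
  · subst hk
    have h1 : qv p 0 = 1 := by
      unfold qv
      rw [if_neg]
      exact fun h => h.2 rfl
    rw [if_pos rfl, h1, Complex.ofReal_one, one_mul]
    have hpi := Real.pi_pos
    have h2 := fc_zero_real (fun x => sc p v x i)
    rw [← h2]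
    push_cast
    have h3 : (2 * (π : ℂ)) ^ 3 ≠ 0 := by
      have : (π : ℂ) ≠ 0 := by exact_mod_cast hpi.ne'
      exact pow_ne_zero _ (mul_ne_zero two_ne_zero this)
    rw [Complex.ofReal_re]
    field_simp
  · rw [if_neg hk]
    by_cases hd : dv p k
    · have h1 : qv p k = 0 := by
        unfold qv
        rw [if_pos ⟨hd, hk⟩]
      rw [h1, Complex.ofReal_zero, zero_mul]
    · have h1 := (hF p (fun x => v x i) hp (hv.comp i)).2.2 k hd
      have h2 : fc (fun x => sc p v x i) k = 0 := h1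
      rw [h2, mul_zero]

theorem ld : S_LD := by
  intro hF σ' L hL p hp
  have hq := Mb_qv p
  refine ⟨fun v hv => MG_sf hq (hL.sf _ (MG_sf hq hv)), fun v w hv hw a b => ?_, fun v hv => ?_,
    fun v hv => ?_⟩
  · unfold QQ
    have hv' := MG_sf hq hv
    have hw' := MG_sf hq hw
    rw [MG_comb hq hv.sp hw.sp, hL.comb _ _ hv' hw', MG_comb hq (hL.sf _ hv').sp (hL.sf _ hw').sp]
  · unfold QQ
    have hv' := MG_sf hq hv
    rw [inner_MG hq hv.sp (hL.sf _ hv').sp]
    exact hL.dis _ hv'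
  · unfold QQ
    obtain ⟨c, hc⟩ := MG_sc hF hp hv.sp
    rw [hc, hL.const c, MG_zero hq]

end Pool.Agent.H306.HF.SLD
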