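import Pool.Agent.H306.HF.Stm

/-! Smallness of the compression error in the sense of forms. -/

noncomputable section

namespace Pool.Agent.H306.HF.SLF

open Set MeasureTheory

open scoped Real ContDiff ENNReal ComplexConjugate

open Pool.Agent.H306.CK Pool.Agent.H306.DS Pool.Agent.H306.HD

theorem fc_one (k : Fin 3 → ℤ) : fc (fun _ => 1) k = if k = 0 then ((2 * π : ℝ) : ℂ) ^ 3 else 0 := by
  rw [fc_eq]
  unfold fcC
  simp only [Complex.ofReal_one, one_mul]
  rw [int_ex]
  simp only [neg_eq_zero]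

theorem fc_const (c : ℝ) (k : Fin 3 → ℤ) :
    fc (fun _ => c) k = if k = 0 then c * ((2 * π : ℝ) : ℂ) ^ 3 else 0 := by
  have h := fc_smul c (fun _ => 1) k
  simp only [mul_one] at h
  rw [h, fc_one]
  split_ifs <;> simp

theorem fc_zero_real (f : V → ℝ) : (((fc f 0).re : ℝ) : ℂ) = fc f 0 := by
  have h := fc_conj f 0
  rw [neg_zero] at h
  exact Complex.conj_eq_iff_re.1 h

theorem sf_const (c : V) : SF (fun _ => c) :=
  ⟨contDiff_const, fun _ _ => rfl, fun x => by simp [CK.pd]⟩

theorem comb_sf {v u : V → V} (hv : SF v) (hu : SF u) (a b : ℝ) :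
    SF (fun x i => a * v x i + b * u x i) := by
  have hs := comb_sp hv.sp hu.sp a b
  refine ⟨hs.1, hs.2, fun x => ?_⟩
  have h1 : ∀ i, pd i (fun y => a * v y i + b * u y i) x =
      a * pd i (fun y => v y i) x + b * pd i (fun y => u y i) x := by
    intro i
    have d1 : DifferentiableAt ℝ (fun y => v y i) x :=
      ((hv.sp.comp i).1.differentiable (by simp)) x
    have d2 : DifferentiableAt ℝ (fun y => u y i) x :=
      ((hu.sp.comp i).1.differentiable (by simp)) x
    have h2 := (d1.hasFDerivAt.const_mul a).add (d2.hasFDerivAt.const_mul b)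
    unfold CK.pd
    have h3 := h2.fderiv
    have e : ((fun y => a * v y i) + fun y => b * u y i) = fun y => a * v y i + b * u y i := rfl
    rw [e] at h3
    rw [h3]
    simp
  simp only [h1]
  rw [Finset.sum_add_distrib, ← Finset.mul_sum, ← Finset.mul_sum, hv.2.2 x, hu.2.2 x]
  ring

theorem fc_zero_eq {f : V → ℝ} (hf : Continuous f) :
    fc f 0 = ((∫ x in torus, f x : ℝ) : ℂ) := by
  have h := fc_parts f hf 0
  have e : ∀ x, kx 0 x = 0 := fun x => by simp [kx]
  simp only [e, Real.cos_zero, Real.sin_zero, mul_one, mul_zero, integral_zero,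
    Complex.ofReal_zero, sub_zero] at h
  exact h

theorem inner_combL {v w z : V → V} (hv : CP v) (hw : CP w) (hz : CP z) (a b : ℝ) :
    inner3 (fun x i => a * v x i + b * w x i) z = a * inner3 v z + b * inner3 w z := by
  rw [inner_comm v z, inner_comm w z, ← inner_comb hv hw hz, inner_comm]
  rfl

theorem inner_combR {v w z : V → V} (hv : CP v) (hw : CP w) (hz : CP z) (a b : ℝ) :
    inner3 z (fun x i => a * v x i + b * w x i) = a * inner3 z v + b * inner3 z w :=
  inner_comb hv hw hz a b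

theorem L_congr {σ' : ℝ} {L : (V → V) → V → V} (hL : LO σ' L) {v w : V → V} (hv : SF v)
    (hw : SF w) (h : ∀ i k, k ≠ 0 → fc (fun x => v x i) k = fc (fun x => w x i) k) :
    L v = L w := by
  have hpi := Real.pi_pos
  set c : V := fun i => ((2 * π) ^ 3)⁻¹ *
    ((fc (fun x => v x i) 0).re - (fc (fun x => w x i) 0).re) with hc
  have hcs := sf_const c
  have e : v = fun x i => 1 * w x i + 1 * c i := by
    refine fc_ext hv.sp (comb_sp hw.sp hcs.sp 1 1) fun i k => ?_
    have h1 := fc_comb hw.sp hcs.sp 1 1 i k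
    rw [h1, fc_const]
    by_cases hk : k = 0
    · subst hk
      rw [if_pos rfl, ← fc_zero_real (fun x => v x i), ← fc_zero_real (fun x => w x i)]
      simp only [hc]
      have h6 : ((2 * π : ℝ) : ℂ) ≠ 0 := by
        exact_mod_cast (by positivity : (2 * π : ℝ) ≠ 0)
      push_cast at h6 ⊢
      field_simp
      ring
    · rw [if_neg hk, h i k hk]
      simp
  rw [e, hL.comb w (fun _ => c) hw hcs 1 1, hL.const]
  ext x i
  simp

theorem fc_L_zero {σ' : ℝ} {L : (V → V) → V → V} (hL : LO σ' L) {v : V → V} (hv : SF v)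
    (i : Fin 3) : fc (fun x => L v x i) 0 = 0 := by
  have hLv := hL.sf v hv
  have hcs := sf_const (Pi.single i 1)
  have h1 : ∀ l : ℝ, inner3 v (L v) + l * inner3 (fun _ => Pi.single i 1) (L v) ≤ 0 := by
    intro l
    have e1 : L (fun x j => 1 * v x j + l * (Pi.single i 1 : V) j) = L v := by
      rw [hL.comb v (fun _ => Pi.single i 1) hv hcs 1 l, hL.const]
      ext x j
      simp
    have h2 := hL.dis _ (comb_sf hv hcs 1 l)
    rw [e1, inner_combL hv.cp hcs.cp hLv.cp, one_mul] at h2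
    exact h2
  have h3 : inner3 (fun _ => Pi.single i 1) (L v) = 0 := by
    by_contra hne
    have h4 := h1 ((1 - inner3 v (L v)) / inner3 (fun _ => Pi.single i 1) (L v))
    rw [div_mul_cancel₀ _ hne] at h4
    linarith
  have h4 : inner3 (fun _ => Pi.single i 1) (L v) = ∫ x in torus, L v x i := by
    unfold inner3
    congr 1
    ext x
    rw [Finset.sum_eq_single i]
    · simp
    · intro j _ hj
      simp [hj]
    · intro hi
      exact absurd (Finset.mem_univ i) hi
  rw [fc_zero_eq (hLv.sp.comp i).cont, ← h4, h3]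
  simp

theorem dv_neg (p : ℕ) (k : Fin 3 → ℤ) : dv p (-k) ↔ dv p k := by
  unfold dv
  simp

theorem Mb_qv (p : ℕ) : Mb (qv p) := by
  refine ⟨fun k => ?_, 1, 0, zero_le_one, fun k => ?_⟩
  · unfold qv
    by_cases h : dv p k ∧ k ≠ 0
    · rw [if_pos h, if_pos ⟨(dv_neg p k).2 h.1, neg_ne_zero.2 h.2⟩]
    · rw [if_neg h, if_neg fun h' => h ⟨(dv_neg p k).1 h'.1, neg_ne_zero.1 h'.2⟩]
  · rw [W_zero]
    unfold qv
    split_ifs <;> norm_num

theorem qv_zero (p : ℕ) : qv p 0 = 1 := by
  unfold qv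
  simp

/-- The multiplier which kills the mean. -/
def z0 (k : Fin 3 → ℤ) : ℝ := if k = 0 then 0 else 1

theorem Mb_z0 : Mb z0 := by
  refine ⟨fun k => ?_, 1, 0, zero_le_one, fun k => ?_⟩
  · unfold z0
    simp only [neg_eq_zero]
  · rw [W_zero]
    unfold z0
    split_ifs <;> norm_num

theorem z0_ne {k : Fin 3 → ℤ} (hk : k ≠ 0) : z0 k = 1 := if_neg hk

theorem lf : S_LF := by
  intro hLB hDIS α σ σ' L hα hα2 hσ hσ' hL ε hε
  obtain ⟨p₀, hp₀⟩ := (hLB σ σ' L hσ' hL).1 |α + σ| (ε ^ 2 / 4) (by positivity)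
  refine ⟨p₀, fun p hp v hv => ?_⟩
  have hq := Mb_qv p
  have hv0 : SF (MG z0 v) := MG_sf Mb_z0 hv
  have hRL : RL p L v = RL p L (MG z0 v) := by
    have e1 : L v = L (MG z0 v) := L_congr hL hv hv0 fun i k hk => by
      rw [fc_MG Mb_z0 hv.sp, z0_ne hk, Complex.ofReal_one, one_mul]
    have e2 : L (MG (qv p) v) = L (MG (qv p) (MG z0 v)) :=
      L_congr hL (MG_sf hq hv) (MG_sf hq hv0) fun i k hk => by
        rw [fc_MG hq hv.sp, fc_MG hq hv0.sp, fc_MG Mb_z0 hv.sp, z0_ne hk, Complex.ofReal_one,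
          one_mul]
    unfold RL QQ
    rw [← e1, ← e2]
  have hLq := hL.sf _ (MG_sf hq hv)
  have hQ : SF (QQ p L v) := MG_sf hq hLq
  have hLv := hL.sf v hv
  have hRe : RL p L v = fun x i => 1 * QQ p L v x i + (-1) * L v x i := by
    ext x i
    unfold RL
    ring
  have hR : SP (RL p L v) := by
    rw [hRe]
    exact comb_sp hQ.sp hLv.sp 1 (-1)
  have hR0 : ∀ i, fc (fun x => RL p L v x i) 0 = 0 := by
    intro i
    have h1 := fc_comb hQ.sp hLv.sp 1 (-1) i 0
    have h2 : fc (fun x => QQ p L v x i) 0 = 0 := by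
      have h3 := fc_MG hq hLq.sp i 0
      rw [fc_L_zero hL (MG_sf hq hv), mul_zero] at h3
      exact h3
    rw [h2, fc_L_zero hL hv, mul_zero, mul_zero, add_zero] at h1
    rw [hRe]
    exact h1
  have hb : hs (-α) (RL p L v) ≤ ENNReal.ofReal (ε ^ 2 / 4) * ∑' k : Fin 3 → ℤ,
      ENNReal.ofReal (if k = 0 then 0 else W α k * ∑ i, ‖fc (fun x => v x i) k‖ ^ 2) := by
    have h1 := hp₀ p hp (-α - σ) (by
      rw [show -α - σ = -(α + σ) by ring, abs_neg]) (MG z0 v) hv0
    rw [show -α - σ + σ = -α by ring, ← hRL] at h1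
    refine h1.trans ?_
    gcongr
    rw [hs_def]
    refine ENNReal.tsum_le_tsum fun k => ENNReal.ofReal_le_ofReal ?_
    by_cases hk : k = 0
    · rw [if_pos hk]
      have h2 : ∀ i, fc (fun x => MG z0 v x i) k = 0 := by
        intro i
        rw [fc_MG Mb_z0 hv.sp, hk]
        simp [z0]
      simp [h2]
    · rw [if_neg hk]
      have h2 : ∀ i, fc (fun x => MG z0 v x i) k = fc (fun x => v x i) k := by
        intro i
        rw [fc_MG Mb_z0 hv.sp, z0_ne hk, Complex.ofReal_one, one_mul]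
      simp only [h2]
      exact mul_le_mul_of_nonneg_right (W_mono (by linarith) k)
        (Finset.sum_nonneg fun i _ => sq_nonneg _)
  -- the multiplier
  have hm1 : Mb (lam 1 α) := by
    constructor
    · intro k
      unfold lam
      simp
    · refine ⟨1, α, zero_le_one, fun k => ?_⟩
      have h0 : (0 : ℝ) ≤ ∑ j, (k j : ℝ) ^ 2 := Finset.sum_nonneg fun j _ => sq_nonneg _
      unfold lam W
      rw [one_mul, one_mul, abs_of_nonneg (Real.rpow_nonneg h0 _)]
      exact Real.rpow_le_rpow h0 (by linarith) hα.le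
  have hlam : ∀ k, lam ε α k = ε * lam 1 α k := by
    intro k
    unfold lam
    ring
  have hmε : Mb (lam ε α) := by
    obtain ⟨he, C, M, hC0, hC⟩ := hm1
    refine ⟨fun k => by rw [hlam, hlam, he], ε * C, M, by positivity, fun k => ?_⟩
    rw [hlam, abs_mul, abs_of_pos hε, mul_assoc]
    exact mul_le_mul_of_nonneg_left (hC k) hε.le
  have hMs := MG_sp hm1 hv.sp
  have hMG : ∀ x i, MG (lam ε α) v x i = ε * MG (lam 1 α) v x i := by
    have h1 : MG (lam ε α) v = fun x i => ε * MG (lam 1 α) v x i + 0 * MG (lam 1 α) v x i := by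
      refine fc_ext (MG_sp hmε hv.sp) (comb_sp hMs hMs ε 0) fun i k => ?_
      rw [fc_comb hMs hMs, fc_MG hmε hv.sp, fc_MG hm1 hv.sp, hlam]
      push_cast
      ring
    intro x i
    have h2 := congrFun (congrFun h1 x) i
    rw [h2]
    ring
  have key : ∀ w : V → V, SP w → (∀ i, fc (fun x => w x i) 0 = 0) →
      hs (-α) w ≤ ENNReal.ofReal (ε ^ 2 / 4) * ∑' k : Fin 3 → ℤ,
        ENNReal.ofReal (if k = 0 then 0 else W α k * ∑ i, ‖fc (fun x => v x i) k‖ ^ 2) →
      inner3 v w ≤ ε * inner3 v (MG (lam 1 α) v) := by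
    intro w hw hw0 hwb
    have h1 := hDIS ε α (ε ^ 2 / 4) v w hε hα (by linarith) (by positivity)
      (le_of_eq (by ring)) hv.sp hw hw0 hwb
    have e1 : (fun x i => -MG (lam ε α) v x i + w x i) =
        fun x i => (-ε) * MG (lam 1 α) v x i + 1 * w x i := by
      ext x i
      rw [hMG]
      ring
    rw [e1, inner_combR hMs.cp hw.cp hv.cp] at h1
    linarith
  have k1 := key (RL p L v) hR hR0 hb
  have hRn : (fun x i => (-1) * RL p L v x i) = fun x i => (-1) * RL p L v x i +
      0 * RL p L v x i := by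
    ext x i
    ring
  have k2 := key (fun x i => (-1) * RL p L v x i) (by
      rw [hRn]
      exact comb_sp hR hR (-1) 0) (fun i => by
      rw [fc_smul, hR0, mul_zero]) (by
      rw [hs_smul]
      simpa using hb)
  have e2 : inner3 v (fun x i => (-1) * RL p L v x i) = -inner3 v (RL p L v) := by
    rw [hRn, inner_combR hR.cp hR.cp hv.cp]
    ring
  rw [e2] at k2
  rw [abs_le]
  constructor <;> linarith

end Pool.Agent.H306.HF.SLF
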