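import Pool.Agent.H306.HF.Stm

/-! Task HF S_SD (helper640): dilations of divergence-free fields. -/

noncomputable section

namespace Pool.Agent.H306.HF.SSD

open Set MeasureTheory

open scoped Real ContDiff ENNReal

open Pool.Agent.H306.CK Pool.Agent.H306.DS Pool.Agent.H306.HD Pool.Agent.H306.HF

variable {v w A : V → V}

/-- The divergence in terms of the Fourier integrals. -/
theorem of_sf (hv : SF v) (k : Fin 3 → ℤ) :
    ∑ i, Complex.I * (k i : ℂ) * fc (fun x => v x i) k = 0 := by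
  have h2 : (fun x => ∑ i, pd i (fun y => v y i) x) = fun _ => (0 : ℝ) := by
    ext x; exact hv.2.2 x
  have h3 := fc_div hv.sp k
  rw [h2] at h3
  have h6 : fc (fun _ => (0 : ℝ)) k = 0 := by
    unfold fc; simp
  rw [← h3, h6]

theorem to_sf (hA : SP A) (h : ∀ k : Fin 3 → ℤ,
    ∑ i, Complex.I * (k i : ℂ) * fc (fun x => A x i) k = 0) : SF A := by
  refine ⟨hA.1, hA.2, fun x => ?_⟩
  have h1 : (fun x => ∑ i, pd i (fun y => A y i) x) = fun _ => (0 : ℝ) := by
    refine fc_inj (continuous_finsetSum _ fun i _ => ((hA.comp i).pd i).cont) continuous_const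
      (fun j x => Finset.sum_congr rfl fun i _ => ((hA.comp i).pd i).2 j x) (fun _ _ => rfl)
      fun k => ?_
    have h4 := fc_div hA k
    have h6 : fc (fun _ => (0 : ℝ)) k = 0 := by
      unfold fc; simp
    rw [h4, h6, h k]
  exact congrFun h1 x

theorem sc_sp (h1 : S_F1) {p : ℕ} (hp : 1 ≤ p) (hv : SP v) : SP (sc p v) := by
  constructor
  · exact contDiff_pi.2 fun i => (h1 p _ hp (hv.comp i)).1.1
  · intro j x
    ext i
    exact (h1 p _ hp (hv.comp i)).1.2 j x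

theorem ds_sp (h2 : S_F2) {p : ℕ} (hp : 1 ≤ p) (hv : SP v) : SP (ds p v) := by
  constructor
  · exact contDiff_pi.2 fun i => (h2 p _ hp (hv.comp i)).1.1
  · intro j x
    ext i
    exact (h2 p _ hp (hv.comp i)).1.2 j x

theorem fc_sc (h1 : S_F1) {p : ℕ} (hp : 1 ≤ p) (hv : SP v) (i : Fin 3) (k : Fin 3 → ℤ) :
    fc (fun x => sc p v x i) (pk p k) = fc (fun x => v x i) k :=
  (h1 p _ hp (hv.comp i)).2.1 k

theorem fc_sc' (h1 : S_F1) {p : ℕ} (hp : 1 ≤ p) (hv : SP v) (i : Fin 3) {l : Fin 3 → ℤ}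
    (hl : ¬dv p l) : fc (fun x => sc p v x i) l = 0 :=
  (h1 p _ hp (hv.comp i)).2.2 l hl

theorem fc_ds (h2 : S_F2) {p : ℕ} (hp : 1 ≤ p) (hv : SP v) (i : Fin 3) (k : Fin 3 → ℤ) :
    fc (fun x => ds p v x i) k = fc (fun x => v x i) (pk p k) :=
  (h2 p _ hp (hv.comp i)).2 k

theorem sum_pk (p : ℕ) (k : Fin 3 → ℤ) (c : Fin 3 → ℂ) :
    ∑ i, Complex.I * (pk p k i : ℂ) * c i = (p : ℂ) * ∑ i, Complex.I * (k i : ℂ) * c i := by
  rw [Finset.mul_sum]
  refine Finset.sum_congr rfl fun i _ => ?_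
  unfold pk
  push_cast
  ring

theorem sd : S_SD := by
  intro h1 h2 p hp
  have hp0 : (p : ℂ) ≠ 0 := by
    have : p ≠ 0 := by omega
    exact_mod_cast this
  refine ⟨fun v hv => ⟨?_, ?_, ?_⟩, fun v w hv hw a b => ?_⟩
  · refine to_sf (sc_sp h1 hp hv.sp) fun k => ?_
    by_cases hk : dv p k
    · choose l hl using hk
      have e : k = pk p l := by
        funext j
        exact hl j
      rw [e, sum_pk]
      simp only [fc_sc h1 hp hv.sp]
      rw [of_sf hv l, mul_zero]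
    · refine Finset.sum_eq_zero fun i _ => ?_
      rw [fc_sc' h1 hp hv.sp i hk, mul_zero]
  · refine to_sf (ds_sp h2 hp hv.sp) fun k => ?_
    simp only [fc_ds h2 hp hv.sp]
    have h3 := of_sf hv (pk p k)
    rw [sum_pk] at h3
    exact (mul_eq_zero.1 h3).resolve_left hp0
  · refine fc_ext (ds_sp h2 hp (sc_sp h1 hp hv.sp)) hv.sp fun i k => ?_
    rw [fc_ds h2 hp (sc_sp h1 hp hv.sp), fc_sc h1 hp hv.sp]
  · refine fc_ext (ds_sp h2 hp (comb_sp hv.sp hw.sp a b))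
      (comb_sp (ds_sp h2 hp hv.sp) (ds_sp h2 hp hw.sp) a b) fun i k => ?_
    rw [fc_ds h2 hp (comb_sp hv.sp hw.sp a b), fc_comb hv.sp hw.sp,
      fc_comb (ds_sp h2 hp hv.sp) (ds_sp h2 hp hw.sp), fc_ds h2 hp hv.sp, fc_ds h2 hp hw.sp]

end Pool.Agent.H306.HF.SSD
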