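import Pool.Agent.H306.HF.Stm

/-! Sobolev norms under dilation. -/

noncomputable section

namespace Pool.Agent.H306.HF.SSH

open Set MeasureTheory

open scoped Real ContDiff ENNReal

open Pool.Agent.H306.CK Pool.Agent.H306.DS Pool.Agent.H306.HD Pool.Agent.H306.HF

theorem pk_inj {p : ℕ} (hp : 1 ≤ p) : Function.Injective (pk p) := by
  intro k l h
  funext j
  have h1 : (p : ℤ) * k j = p * l j := congrFun h j
  have hp0 : (p : ℤ) ≠ 0 := by exact_mod_cast (by omega : p ≠ 0)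
  exact mul_left_cancel₀ hp0 h1

theorem mem_range_pk {p : ℕ} {l : Fin 3 → ℤ} (h : dv p l) : l ∈ Set.range (pk p) := by
  choose c hc using h
  exact ⟨c, funext fun j => (hc j).symm⟩

theorem sum_pk (p : ℕ) (k : Fin 3 → ℤ) :
    ∑ j, ((pk p k j : ℤ) : ℝ) ^ 2 = (p : ℝ) ^ 2 * ∑ j, (k j : ℝ) ^ 2 := by
  rw [Finset.mul_sum]
  refine Finset.sum_congr rfl fun j _ => ?_
  unfold pk
  push_cast
  ring

theorem base_le {p : ℕ} (hp : 1 ≤ p) (k : Fin 3 → ℤ) :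
    1 + ∑ j, (k j : ℝ) ^ 2 ≤ 1 + ∑ j, ((pk p k j : ℤ) : ℝ) ^ 2 ∧
    1 + ∑ j, ((pk p k j : ℤ) : ℝ) ^ 2 ≤ (p : ℝ) ^ 2 * (1 + ∑ j, (k j : ℝ) ^ 2) := by
  rw [sum_pk]
  have h0 : 0 ≤ ∑ j, (k j : ℝ) ^ 2 := by positivity
  have hp1 : (1 : ℝ) ≤ p := by exact_mod_cast hp
  have hp2 : (1 : ℝ) ≤ (p : ℝ) ^ 2 := one_le_pow₀ hp1
  constructor <;> nlinarith

theorem p_pow {p : ℕ} (s : ℝ) : ((p : ℝ) ^ 2) ^ |s| = (p : ℝ) ^ (2 * |s|) := by
  rw [Real.rpow_mul (Nat.cast_nonneg p)]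
  norm_num

/-- comparison of two weights -/
theorem weight {a b P : ℝ} (ha : 0 < a) (hb : 0 < b) (hP : 1 ≤ P) (h1 : a ≤ P * b) (h2 : b ≤ P * a)
    (s : ℝ) : a ^ s ≤ P ^ |s| * b ^ s := by
  have hP0 : 0 < P := by linarith
  rcases le_total 0 s with hs | hs
  · rw [abs_of_nonneg hs, ← Real.mul_rpow hP0.le hb.le]
    exact Real.rpow_le_rpow ha.le h1 hs
  · rw [abs_of_nonpos hs, Real.rpow_neg hP0.le]
    have h3 : (P * a) ^ s ≤ b ^ s := Real.rpow_le_rpow_of_nonpos hb h2 hs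
    rw [Real.mul_rpow hP0.le ha.le] at h3
    have h4 : 0 < P ^ s := Real.rpow_pos_of_pos hP0 s
    rw [inv_mul_eq_div, le_div_iff₀ h4, mul_comm]
    exact h3

theorem weights {p : ℕ} (hp : 1 ≤ p) (k : Fin 3 → ℤ) (s : ℝ) :
    (1 + ∑ j, ((pk p k j : ℤ) : ℝ) ^ 2) ^ s ≤
      (p : ℝ) ^ (2 * |s|) * (1 + ∑ j, (k j : ℝ) ^ 2) ^ s ∧
    (1 + ∑ j, (k j : ℝ) ^ 2) ^ s ≤
      (p : ℝ) ^ (2 * |s|) * (1 + ∑ j, ((pk p k j : ℤ) : ℝ) ^ 2) ^ s := by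
  obtain ⟨h1, h2⟩ := base_le hp k
  have ha : 0 < 1 + ∑ j, (k j : ℝ) ^ 2 := by positivity
  have hb : 0 < 1 + ∑ j, ((pk p k j : ℤ) : ℝ) ^ 2 := by positivity
  have hp1 : (1 : ℝ) ≤ p := by exact_mod_cast hp
  have hP : (1 : ℝ) ≤ (p : ℝ) ^ 2 := one_le_pow₀ hp1
  have h3 : 1 + ∑ j, (k j : ℝ) ^ 2 ≤ (p : ℝ) ^ 2 * (1 + ∑ j, ((pk p k j : ℤ) : ℝ) ^ 2) := by
    nlinarith
  rw [← p_pow]
  exact ⟨weight hb ha hP h2 h3 s, weight ha hb hP h3 h2 s⟩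

theorem sh : S_SH := by
  intro h1 h2 p hp s v hv
  have hc : ∀ i, SPf (fun y => v y i) := fun i => hv.comp i
  have hpk := pk_inj hp
  constructor
  · have e1 : ∀ i k, fc (fun x => sc p v x i) (pk p k) = fc (fun x => v x i) k := fun i k =>
      (h1 p (fun y => v y i) hp (hc i)).2.1 k
    have e2 : ∀ i l, ¬ dv p l → fc (fun x => sc p v x i) l = 0 := fun i l hl =>
      (h1 p (fun y => v y i) hp (hc i)).2.2 l hl
    unfold hs
    have e3 : ∑' k : Fin 3 → ℤ, ENNReal.ofReal ((1 + ∑ j, ((pk p k j : ℤ) : ℝ) ^ 2) ^ s *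
        ∑ i, ‖fc (fun x => sc p v x i) (pk p k)‖ ^ 2) =
        ∑' l : Fin 3 → ℤ, ENNReal.ofReal ((1 + ∑ j, (l j : ℝ) ^ 2) ^ s *
        ∑ i, ‖fc (fun x => sc p v x i) l‖ ^ 2) := by
      refine Function.Injective.tsum_eq (f := fun l : Fin 3 → ℤ =>
        ENNReal.ofReal ((1 + ∑ j, (l j : ℝ) ^ 2) ^ s *
        ∑ i, ‖fc (fun x => sc p v x i) l‖ ^ 2)) hpk ?_
      intro l hl
      by_contra hcon
      apply hl
      have h3 : ¬ dv p l := fun h => hcon (mem_range_pk h)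
      simp only [e2 _ l h3, norm_zero]
      norm_num
    rw [← e3, ← ENNReal.tsum_mul_left]
    refine ENNReal.tsum_le_tsum fun k => ?_
    rw [← ENNReal.ofReal_mul (by positivity)]
    refine ENNReal.ofReal_le_ofReal ?_
    simp only [e1]
    rw [← mul_assoc]
    exact mul_le_mul_of_nonneg_right (weights hp k s).1 (by positivity)
  · have e1 : ∀ i k, fc (fun x => ds p v x i) k = fc (fun x => v x i) (pk p k) := fun i k =>
      (h2 p (fun y => v y i) hp (hc i)).2 k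
    unfold hs
    simp only [e1]
    have e3 : ∑' k : Fin 3 → ℤ, ENNReal.ofReal ((1 + ∑ j, ((pk p k j : ℤ) : ℝ) ^ 2) ^ s *
        ∑ i, ‖fc (fun x => v x i) (pk p k)‖ ^ 2) ≤
        ∑' l : Fin 3 → ℤ, ENNReal.ofReal ((1 + ∑ j, (l j : ℝ) ^ 2) ^ s *
        ∑ i, ‖fc (fun x => v x i) l‖ ^ 2) :=
      ENNReal.tsum_comp_le_tsum_of_injective hpk (fun l : Fin 3 → ℤ =>
        ENNReal.ofReal ((1 + ∑ j, (l j : ℝ) ^ 2) ^ s *
        ∑ i, ‖fc (fun x => v x i) l‖ ^ 2))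
    refine le_trans ?_ (mul_le_mul_right e3 _)
    rw [← ENNReal.tsum_mul_left]
    refine ENNReal.tsum_le_tsum fun k => ?_
    rw [← ENNReal.ofReal_mul (by positivity)]
    refine ENNReal.ofReal_le_ofReal ?_
    rw [← mul_assoc]
    exact mul_le_mul_of_nonneg_right (weights hp k s).2 (by positivity)

end Pool.Agent.H306.HF.SSH
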