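import Pool.Agent.H306.HF.Stm
import Pool.Agent.H306.HD.TDIS

/-! Proof of `S_SI`: dilation, inverse dilation and the inner product. -/

noncomputable section

namespace Pool.Agent.H306.HF.SSI

open Set MeasureTheory

open scoped Real ContDiff ENNReal ComplexConjugate

open Pool.Agent.H306.CK Pool.Agent.H306.DS Pool.Agent.H306.HD Pool.Agent.H306.HF

theorem pk_inj {p : ℕ} (hp : 1 ≤ p) : Function.Injective (pk p) := by
  intro k l h
  funext j
  have h1 : (p : ℤ) * k j = (p : ℤ) * l j := congrFun h j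
  have h2 : (p : ℤ) ≠ 0 := by exact_mod_cast (by omega : p ≠ 0)
  exact mul_left_cancel₀ h2 h1

theorem dv_range {p : ℕ} {l : Fin 3 → ℤ} (h : l ∉ Set.range (pk p)) : ¬dv p l := by
  intro hd
  apply h
  choose c hc using hd
  exact ⟨c, funext fun j => (hc j).symm⟩

theorem sp_of {v : V → V} (h : ∀ i, SPf (fun x => v x i)) : SP v :=
  ⟨contDiff_pi.2 fun i => (h i).1, fun j x => by
    ext i
    exact (h i).2 j x⟩

theorem sc_sp (h1 : S_F1) {p : ℕ} (hp : 1 ≤ p) {v : V → V} (hv : SP v) : SP (sc p v) :=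
  sp_of fun i => (h1 p (fun x => v x i) hp (hv.comp i)).1

theorem ds_sp (h2 : S_F2) {p : ℕ} (hp : 1 ≤ p) {v : V → V} (hv : SP v) : SP (ds p v) :=
  sp_of fun i => (h2 p (fun x => v x i) hp (hv.comp i)).1

theorem fc_sc (h1 : S_F1) {p : ℕ} (hp : 1 ≤ p) {v : V → V} (hv : SP v) (i : Fin 3)
    (k : Fin 3 → ℤ) : fc (fun x => sc p v x i) (pk p k) = fc (fun x => v x i) k :=
  (h1 p (fun x => v x i) hp (hv.comp i)).2.1 k

theorem fc_sc0 (h1 : S_F1) {p : ℕ} (hp : 1 ≤ p) {v : V → V} (hv : SP v) (i : Fin 3)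
    {l : Fin 3 → ℤ} (hl : ¬dv p l) : fc (fun x => sc p v x i) l = 0 :=
  (h1 p (fun x => v x i) hp (hv.comp i)).2.2 l hl

theorem fc_ds (h2 : S_F2) {p : ℕ} (hp : 1 ≤ p) {v : V → V} (hv : SP v) (i : Fin 3)
    (k : Fin 3 → ℤ) : fc (fun x => ds p v x i) k = fc (fun x => v x i) (pk p k) :=
  (h2 p (fun x => v x i) hp (hv.comp i)).2 k

theorem adj (h1 : S_F1) (h2 : S_F2) {p : ℕ} (hp : 1 ≤ p) {v w : V → V} (hv : SP v)
    (hw : SP w) : inner3 v (sc p w) = inner3 (ds p v) w := by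
  have a1 := parseval3 hv.cp (sc_sp h1 hp hw).cp
  have a2 := parseval3 (ds_sp h2 hp hv).cp hw.cp
  have z : ∀ l, l ∉ Set.range (pk p) →
      ∑ i, conj (fc (fun x => v x i) l) * fc (fun x => sc p w x i) l = 0 := by
    intro l hl
    apply Finset.sum_eq_zero
    intro i _
    rw [fc_sc0 h1 hp hw i (dv_range hl), mul_zero]
  have a3 := ((pk_inj hp).hasSum_iff z).2 a1
  have e : ((fun k => ∑ i, conj (fc (fun x => v x i) k) * fc (fun x => sc p w x i) k) ∘ pk p) =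
      fun k => ∑ i, conj (fc (fun x => ds p v x i) k) * fc (fun x => w x i) k := by
    funext k
    simp only [Function.comp]
    refine Finset.sum_congr rfl fun i _ => ?_
    rw [fc_sc h1 hp hw i k, fc_ds h2 hp hv i k]
  rw [e] at a3
  have h3 := Complex.ofReal_injective (a3.unique a2)
  have hpi := Real.pi_pos
  have h4 : (2 * π) ^ 3 ≠ 0 := by positivity
  exact mul_left_cancel₀ h4 h3

theorem lam_pk {p : ℕ} (ν α : ℝ) (k : Fin 3 → ℤ) :
    lam ν α (pk p k) = lam (ν * (p : ℝ) ^ (2 * α)) α k := by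
  unfold lam pk
  have h1 : ∑ j, (((p : ℤ) * k j : ℤ) : ℝ) ^ 2 = (p : ℝ) ^ 2 * ∑ j, (k j : ℝ) ^ 2 := by
    rw [Finset.mul_sum]
    refine Finset.sum_congr rfl fun j _ => ?_
    push_cast
    ring
  have h2 : ((p : ℝ) ^ 2) ^ α = (p : ℝ) ^ (2 * α) := by
    rw [← Real.rpow_natCast, ← Real.rpow_mul (Nat.cast_nonneg p)]
    norm_num
  rw [h1, Real.mul_rpow (by positivity) (Finset.sum_nonneg fun j _ => sq_nonneg _), ← mul_assoc, h2]

theorem lam_le {p : ℕ} (hp : 1 ≤ p) {α : ℝ} (hα : 0 < α) (k : Fin 3 → ℤ) :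
    lam 1 α k ≤ lam 1 α (pk p k) := by
  unfold lam pk
  rw [one_mul, one_mul]
  apply Real.rpow_le_rpow (Finset.sum_nonneg fun j _ => sq_nonneg _) _ hα.le
  apply Finset.sum_le_sum
  intro j _
  push_cast
  rw [mul_pow]
  have h1 : (1 : ℝ) ≤ (p : ℝ) := by exact_mod_cast hp
  exact le_mul_of_one_le_left (sq_nonneg _) (one_le_pow₀ h1)

theorem en {α : ℝ} (hα : 0 < α) {v : V → V} (hv : SP v) :
    HasSum (fun k => lam 1 α k * ∑ i, ‖fc (fun x => v x i) k‖ ^ 2)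
      ((2 * π) ^ 3 * inner3 v (MG (lam 1 α) v)) := by
  have hm := TDIS.Mb_lam (ν := 1) (α := α) one_pos hα
  have h := parseval3 hv.cp (MG_sp hm hv).cp
  have e : (fun k => ∑ i, conj (fc (fun x => v x i) k) * fc (fun x => MG (lam 1 α) v x i) k) =
      fun k => ((lam 1 α k * ∑ i, ‖fc (fun x => v x i) k‖ ^ 2 : ℝ) : ℂ) := by
    funext k
    rw [Finset.mul_sum, Complex.ofReal_sum]
    refine Finset.sum_congr rfl fun i _ => ?_
    rw [fc_MG hm hv]
    have e4 : conj (fc (fun x => v x i) k) * fc (fun x => v x i) k =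
        ((‖fc (fun x => v x i) k‖ ^ 2 : ℝ) : ℂ) := by
      rw [mul_comm, Complex.mul_conj, Complex.normSq_eq_norm_sq]
    rw [mul_left_comm, e4, ← Complex.ofReal_mul]
  rw [e] at h
  exact Complex.hasSum_ofReal.1 h

theorem le_en (h2 : S_F2) {p : ℕ} (hp : 1 ≤ p) {α : ℝ} (hα : 0 < α) {v : V → V} (hv : SP v) :
    inner3 (ds p v) (MG (lam 1 α) (ds p v)) ≤ inner3 v (MG (lam 1 α) v) := by
  have a1 := en hα (ds_sp h2 hp hv)
  have a2 := en hα hv
  have h3 : (2 * π) ^ 3 * inner3 (ds p v) (MG (lam 1 α) (ds p v)) ≤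
      (2 * π) ^ 3 * inner3 v (MG (lam 1 α) v) := by
    refine hasSum_le_inj (pk p) (pk_inj hp) (fun c _ => ?_) (fun k => ?_) a1 a2
    · exact mul_nonneg (TDIS.lam_nonneg one_pos c) (Finset.sum_nonneg fun i _ => sq_nonneg _)
    · simp only [fc_ds h2 hp hv]
      exact mul_le_mul_of_nonneg_right (lam_le hp hα k) (Finset.sum_nonneg fun i _ => sq_nonneg _)
  have hpi := Real.pi_pos
  have h4 : 0 < (2 * π) ^ 3 := by positivity
  exact le_of_mul_le_mul_left h3 h4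

theorem comm (h1 : S_F1) {p : ℕ} (hp : 1 ≤ p) {ν α : ℝ} (hν : 0 < ν) (hα : 0 < α) {v : V → V}
    (hv : SP v) : MG (lam ν α) (sc p v) = sc p (MG (lam (ν * (p : ℝ) ^ (2 * α)) α) v) := by
  have hm := TDIS.Mb_lam hν hα
  have hp0 : (0 : ℝ) < p := by exact_mod_cast (by omega : 0 < p)
  have hν' : 0 < ν * (p : ℝ) ^ (2 * α) := mul_pos hν (Real.rpow_pos_of_pos hp0 _)
  have hm' := TDIS.Mb_lam hν' hα
  have hM := MG_sp hm' hv
  refine fc_ext (MG_sp hm (sc_sp h1 hp hv)) (sc_sp h1 hp hM) fun i l => ?_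
  rw [fc_MG hm (sc_sp h1 hp hv)]
  by_cases hl : l ∈ Set.range (pk p)
  · obtain ⟨k, rfl⟩ := hl
    rw [fc_sc h1 hp hv, fc_sc h1 hp hM, fc_MG hm' hv, lam_pk]
  · rw [fc_sc0 h1 hp hv i (dv_range hl), fc_sc0 h1 hp hM i (dv_range hl), mul_zero]

theorem si : S_SI := by
  intro h1 h2 p hp
  exact ⟨fun v w hv hw => adj h1 h2 hp hv hw, fun α v hα hv => le_en h2 hp hα hv,
    fun ν α v hν hα hv => comm h1 hp hν hα hv⟩

end Pool.Agent.H306.HF.SSI
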