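import Pool.Agent.H306.HF.Final
import Pool.Agent.H306.HF.SF1
import Pool.Agent.H306.HF.SF2
import Pool.Agent.H306.HF.SSD
import Pool.Agent.H306.HF.SSH
import Pool.Agent.H306.HF.SSI
import Pool.Agent.H306.HF.SPD
import Pool.Agent.H306.HF.SLB
import Pool.Agent.H306.HF.SLF
import Pool.Agent.H306.HF.SLD

/-! Version 3, final form. -/

noncomputable section

namespace Pool.Agent.H306.HF

open Set MeasureTheory

open scoped Real ContDiff ENNReal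

open Pool.Agent.H306.CK Pool.Agent.H306.DS Pool.Agent.H306.HD Pool.Agent.H306.HD.Asm

theorem main (ν α σ σ' δ : ℝ) (hν : 0 < ν) (hα : 0 < α) (hα1 : α < 1 / 2) (hσ : -(2 * α) ≤ σ)
    (hασ : σ < 1 / 4 - 3 * α + α ^ 2) (hσ' : σ < σ') (hδ : 0 < δ) (L : (V → V) → V → V)
    (hL : ∀ v, SF v → SF (L v))
    (hL1 : ∀ v w, SF v → SF w → ∀ a b : ℝ,
      L (fun x i => a * v x i + b * w x i) = fun x i => a * L v x i + b * L w x i)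
    (hL2 : ∀ c : V, L (fun _ => c) = fun _ _ => 0)
    (hL3 : ∀ S : ℝ, ∃ C : ℝ, ∀ s : ℝ, |s| ≤ S → ∀ v, SF v →
      hs (s + σ') (L v) ≤ ENNReal.ofReal C * hs s v)
    (hL4 : ∀ v, SF v → inner3 v (L v) ≤ 0) :
    ∃ K : (V → V) → V → V,
      (∀ v, SF v → SF (K v)) ∧
      (∀ v w, SF v → SF w → ∀ a b : ℝ,
        K (fun x i => a * v x i + b * w x i) = fun x i => a * K v x i + b * K w x i) ∧
      (∀ s : ℝ, ∃ C : ℝ, ∀ v, SF v →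
        hs (s + σ) (fun x i => K v x i - L v x i) ≤ ENNReal.ofReal C * hs s v) ∧
      (∀ s : ℝ, |s| ≤ 1 / δ → ∀ v, SF v →
        hs (s + σ) (fun x i => K v x i - L v x i) ≤ ENNReal.ofReal δ * hs s v) ∧
      (∀ v, SF v → |inner3 v (fun x i => K v x i - L v x i)| ≤
        δ * inner3 v (MG (lam 1 α) v)) ∧
      (∀ v, SF v → inner3 v (fun x i => -MG (lam ν α) v x i + K v x i) ≤ 0) ∧
      (∀ (T : ℝ) (u : ℝ → V → V) (p : ℝ → V → ℝ),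
        IsSol (fun v x i => -MG (lam ν α) v x i + K v x i) (Ico 0 T) u p →
        (∀ t ∈ Ico 0 T, SF (u t)) → ∀ s ∈ Ico 0 T, ∀ t ∈ Ico 0 T, s ≤ t →
        inner3 (u t) (u t) ≤ inner3 (u s) (u s)) ∧
      ∃ (T : ℝ) (u : ℝ → V → V), 0 < T ∧ T ≤ δ ∧ (∀ x i, |u 0 x i| ≤ δ) ∧
        ContDiffOn ℝ ∞ (fun z : ℝ × V => u z.1 z.2) (Ico 0 T ×ˢ univ) ∧
        IsSol (fun v x i => -MG (lam ν α) v x i + K v x i) (Ico 0 T) u (fun _ _ => 0) ∧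
        (∀ t ∈ Ico 0 T, SF (u t)) ∧
        (∀ s : ℝ, ∀ t ∈ Ico 0 T, ∃ C : ℝ, ∀ τ ∈ Icc 0 t, hs s (u τ) ≤ ENNReal.ofReal C) ∧
        (∀ M : ℝ, ∃ t ∈ Ico 0 T, ∃ x, M < ‖curl (u t) x‖) ∧
        (∀ (T' : ℝ) (v : ℝ → V → V) (q : ℝ → V → ℝ),
          IsSol (fun v x i => -MG (lam ν α) v x i + K v x i) (Ico 0 T') v q →
          (∀ t ∈ Ico 0 T', SF (v t)) → v 0 = u 0 → T' ≤ T ∧ ∀ t ∈ Ico 0 T', v t = u t) ∧
        ∃ w : ℝ → V → V, w 0 = u 0 ∧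
          ContDiffOn ℝ ∞ (fun z : ℝ × V => w z.1 z.2) (Ici 0 ×ˢ univ) ∧
          IsSol (fun v x i => -MG (lam ν α) v x i) (Ici 0) w (fun _ _ => 0) ∧
          (∀ t ∈ Ici (0 : ℝ), SF (w t)) ∧
          ∀ s : ℝ, ∀ t ∈ Ici (0 : ℝ), hs s (w t) ≤ hs s (w 0) :=
  main3 SF1.f1 SF2.f2 SSD.sd SSH.sh SSI.si SPD.spd SLB.lb SLF.lf SLD.ld ν α σ σ' δ hν hα hα1 hσ
    hασ hσ' hδ L ⟨hL, hL1, hL2, hL3, hL4⟩

end Pool.Agent.H306.HF
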